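import Pool.Agent.NL48.CenB

set_option autoImplicit false

/-!
# NL48/CenLA: the centre without logarithm, from the first two moments of the comparable neighbours
-/

open Polynomial

namespace Pool.NL48

open Pool.HB45 Pool.PH43

/-- THE CENTRE, given the moments; `h ≤ c N` -/
theorem cen_core_lin (A : ℝ) (hA : 0 < A) : ∃ ε₁ : ℝ, 0 < ε₁ ∧ ∃ c1 : ℝ, 0 < c1 ∧ ∃ N0 : ℕ,
    ∀ N ≥ N0, ∀ h : ℕ, 1 ≤ h → (h : ℝ) ≤ c1 * N → ∀ (Q : Rel (N + 1)) (κ lab : Fin (N + 1) → ℕ),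
    Lev h Q κ → Nat' Q lab →
    (∀ s : ℝ, |s| ≤ 6 * A / Real.sqrt N →
      ∑ g ∈ LE Q, |(adj Q g : ℝ) - Gm Q| * Real.exp (s * Xf lab g / 2) ≤
        ε₁ * Real.sqrt N * MR Q lab s ∧
      ∑ g ∈ LE Q, (nw Q g : ℝ) * Real.exp (s * Xf lab g / 2) ≤
        20 * (h + Real.sqrt N) * MR Q lab s) →
    ∀ j : ℕ, 1 ≤ j → |2 * (j : ℝ) - (N - Gm Q)| ≤ A * Real.sqrt N →
      0 < w Q lab j ∧ w Q lab (j - 1) * w Q lab (j + 1) ≤ w Q lab j ^ 2 := by
  obtain ⟨K1, hK1, ε, hε, N1, hcirc⟩ := circle (1 / 140) (by norm_num)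
  obtain ⟨M, hM⟩ : ∃ M, M = K1 * Real.exp (K1 ^ 2 / 24) := ⟨_, rfl⟩
  have hM0 : 0 < M := by
    rw [hM]
    positivity
  obtain ⟨δ, hδ⟩ : ∃ δ, δ = ε / M := ⟨_, rfl⟩
  have hδ0 : 0 < δ := by
    rw [hδ]
    positivity
  obtain ⟨D, hD⟩ : ∃ D, D = 6 * A + K1 := ⟨_, rfl⟩
  have hD0 : 0 < D := by
    rw [hD]
    positivity
  obtain ⟨B, hB⟩ : ∃ B, B = max (4 * (210 * D + 10 * D ^ 2) / δ) (1600 * D) := ⟨_, rfl⟩
  have hB1 : 4 * (210 * D + 10 * D ^ 2) / δ ≤ B := by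
    rw [hB]
    exact le_max_left _ _
  have hB2 : 1600 * D ≤ B := by
    rw [hB]
    exact le_max_right _ _
  have hB0 : 0 < B := lt_of_lt_of_le (by positivity) hB2
  refine ⟨δ / 4, by positivity, min (δ / (800 * D)) (1 / 20000), by positivity,
    max N1 (max ⌈B ^ 2⌉₊ (6 * 800 ^ 3)), fun N hN h hh hhN' Q κ lab hκ hn hI j hj hjc => ?_⟩
  have g1 : N1 ≤ N := (le_max_left _ _).trans hN
  have g2 : ⌈B ^ 2⌉₊ ≤ N := (le_max_left _ _).trans ((le_max_right _ _).trans hN)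
  have g3 : 6 * 800 ^ 3 ≤ N := (le_max_right _ _).trans ((le_max_right _ _).trans hN)
  have hNb : (6 * 800 ^ 3 : ℝ) ≤ N := by exact_mod_cast g3
  have hN0 : (0 : ℝ) < N := lt_of_lt_of_le (by norm_num) hNb
  have hN1 : (1 : ℝ) ≤ N := le_trans (by norm_num) hNb
  have hh' : (1 : ℝ) ≤ h := by exact_mod_cast hh
  obtain ⟨q, hq⟩ : ∃ q, q = Real.sqrt (N : ℝ) := ⟨_, rfl⟩
  have hBq : B ≤ q := by
    rw [hq]
    exact Real.le_sqrt_of_sq_le ((Nat.le_ceil _).trans (by exact_mod_cast g2))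
  have hq0 : 0 < q := by
    rw [hq]
    exact Real.sqrt_pos.2 hN0
  have hqq : q * q = N := by
    rw [hq]
    exact Real.mul_self_sqrt hN0.le
  have hq1 : 1 ≤ q := by
    by_contra hcon
    push Not at hcon
    nlinarith
  rw [← hq] at hjc
  -- the tilt
  obtain ⟨s, hs⟩ : ∃ s, s = 6 * ((N : ℝ) - Gm Q - 2 * j) / N := ⟨_, rfl⟩
  have hsN : s * N = 6 * ((N : ℝ) - Gm Q - 2 * j) := by
    rw [hs]
    field_simp
  have hsabs : |s| ≤ 6 * A / q := by
    rw [hs, abs_div, abs_of_pos hN0, div_le_iff₀ hN0, abs_mul, abs_of_pos (by norm_num : (0 : ℝ) < 6)]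
    have h3 : |(N : ℝ) - Gm Q - 2 * j| ≤ A * q := by
      rw [show (N : ℝ) - Gm Q - 2 * j = -(2 * (j : ℝ) - (N - Gm Q)) by ring, abs_neg]
      exact hjc
    have h4 : 6 * A / q * N = 6 * (A * q) := by
      rw [← hqq]
      field_simp
    rw [h4]
    linarith
  have hphase : (N : ℝ) / 2 - j = Gm Q / 2 + s * N / 12 := by
    rw [hsN]
    ring
  obtain ⟨Y, hY⟩ : ∃ Y, Y = K1 / q := ⟨_, rfl⟩
  have hY0 : 0 < Y := by
    rw [hY]
    positivity
  obtain ⟨u, hu⟩ : ∃ u, u = |s| + Y := ⟨_, rfl⟩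
  have hu0 : 0 ≤ u := by
    rw [hu]
    positivity
  have huq : u * q ≤ D := by
    rw [hu, hY, add_mul, div_mul_cancel₀ _ hq0.ne', hD]
    have h3 : |s| * q ≤ 6 * A := by
      have h4 := mul_le_mul_of_nonneg_right hsabs hq0.le
      rwa [div_mul_cancel₀ _ hq0.ne'] at h4
    linarith
  have hu1 : u ≤ 1 / 1600 := by
    have h3 : u * q ≤ 1 / 1600 * q := by linarith
    exact le_of_mul_le_mul_right h3 hq0
  have hs16 : |s| ≤ 1 / 1600 := by
    rw [hu] at hu1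
    linarith
  obtain ⟨hI1, hI2⟩ := hI s (by rw [← hq]; exact hsabs)
  rw [← hq] at hI1 hI2
  have hMR := MR_pos hn s
  -- the height
  have hNh : 20000 * h ≤ N := by
    have h3 : (h : ℝ) ≤ 1 / 20000 * N :=
      hhN'.trans (mul_le_mul_of_nonneg_right (min_le_right _ _) hN0.le)
    have h5 : 20000 * (h : ℝ) ≤ N := by linarith
    exact_mod_cast h5
  have hhq : u * h ≤ δ / 800 * q := by
    have h3 : (h : ℝ) ≤ δ / (800 * D) * N :=
      hhN'.trans (mul_le_mul_of_nonneg_right (min_le_left _ _) hN0.le)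
    have h4 : u * q * h ≤ D * h := mul_le_mul_of_nonneg_right huq (by linarith)
    have h5 : D * h ≤ D * (δ / (800 * D) * N) := mul_le_mul_of_nonneg_left h3 hD0.le
    have h6 : D * (δ / (800 * D) * N) = δ / 800 * q * q := by
      rw [mul_assoc (δ / 800) q q, hqq]
      field_simp
    have h7 : u * h * q ≤ δ / 800 * q * q := by
      calc u * h * q = u * q * h := by ring
        _ ≤ _ := (h4.trans h5).trans_eq h6
    exact le_of_mul_le_mul_right h7 hq0
  have hmain : 10 * u * ((1 + u * N) * MR Q lab s +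
        ∑ g ∈ LE Q, (nw Q g : ℝ) * Real.exp (s * Xf lab g / 2)) +
      ∑ g ∈ LE Q, |(adj Q g : ℝ) - Gm Q| * Real.exp (s * Xf lab g / 2) ≤ δ * q * MR Q lab s := by
    have h3 : 10 * u * ((1 + u * N) * MR Q lab s +
        ∑ g ∈ LE Q, (nw Q g : ℝ) * Real.exp (s * Xf lab g / 2)) ≤
        10 * u * ((1 + u * N) * MR Q lab s + 20 * (h + q) * MR Q lab s) :=
      mul_le_mul_of_nonneg_left (by linarith) (by positivity)
    have h4 : 10 * u * (1 + u * N) + 200 * (u * q) ≤ δ / 4 * q := by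
      have h5 : u ≤ u * q := le_mul_of_one_le_right hu0 hq1
      have h6 : u * (u * N) = (u * q) * (u * q) := by
        rw [← hqq]
        ring
      have h7 : (u * q) * (u * q) ≤ D ^ 2 := by
        calc (u * q) * (u * q) ≤ D * D :=
              mul_le_mul huq huq (by positivity) (by positivity)
          _ = D ^ 2 := by ring
      have h8 : 210 * D + 10 * D ^ 2 ≤ δ / 4 * q := by
        have h9 : 4 * (210 * D + 10 * D ^ 2) / δ ≤ q := hB1.trans hBq
        rw [div_le_iff₀ hδ0] at h9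
        linarith
      calc 10 * u * (1 + u * N) + 200 * (u * q) = 10 * u + 10 * (u * (u * N)) + 200 * (u * q) := by ring
        _ ≤ 210 * D + 10 * D ^ 2 := by
            rw [h6]
            linarith
        _ ≤ δ / 4 * q := h8
    have h5 : 10 * u * ((1 + u * N) * MR Q lab s + 20 * (h + q) * MR Q lab s) =
        (10 * u * (1 + u * N) + 200 * (u * q) + 200 * (u * h)) * MR Q lab s := by ring
    have h6 : (10 * u * (1 + u * N) + 200 * (u * q) + 200 * (u * h)) * MR Q lab s ≤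
        (δ / 4 * q + 200 * (δ / 800 * q)) * MR Q lab s :=
      mul_le_mul_of_nonneg_right (by linarith) hMR.le
    have h7 : 0 ≤ δ * q * MR Q lab s := by positivity
    nlinarith
  rw [hu] at hmain
  have hz : |s| + Y ≤ 1 / 10 := by
    rw [← hu]
    linarith
  have hE0 : 0 < Real.exp (-(s * N / 2)) * MR Q lab s := mul_pos (Real.exp_pos _) hMR
  have hη2 : Real.exp (-((N : ℝ) / 800)) ≤ 1 / (N : ℝ) ^ 2 := by
    have h3 := Real.pow_div_factorial_le_exp ((N : ℝ) / 800) (by positivity) 3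
    have h4 : (N : ℝ) ^ 2 ≤ Real.exp ((N : ℝ) / 800) := by
      refine le_trans ?_ h3
      have h5 : ((3 : ℕ).factorial : ℝ) = 6 := by norm_num [Nat.factorial]
      rw [h5, le_div_iff₀ (by norm_num), div_pow]
      rw [le_div_iff₀ (by norm_num)]
      have h6 : (0 : ℝ) ≤ (N : ℝ) ^ 2 := sq_nonneg _
      nlinarith
    rw [Real.exp_neg, ← one_div]
    exact one_div_le_one_div_of_le (by positivity) h4
  have hfin := hcirc N g1 (Wp Q lab) (Real.exp (-s)) (Real.exp (-(s * N / 2)) * MR Q lab s)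
    (Real.exp (-((N : ℝ) / 800))) j (Real.exp_pos _) hE0 (Real.exp_pos _).le hη2
    (fun k => by rw [coeff_Wp]; exact Nat.cast_nonneg _) hj ?_ ?_
  · rw [coeff_Wp, coeff_Wp, coeff_Wp] at hfin
    exact_mod_cast hfin
  · intro θ hθ
    rw [← hq, ← hY] at hθ
    refine (circ_a hn s θ Y (δ * q) j hphase hθ hz hmain).trans ?_
    refine mul_le_mul_of_nonneg_right ?_ hE0.le
    have h3 : Y ^ 2 * N / 24 = K1 ^ 2 / 24 := by
      rw [hY, ← hqq]
      field_simp
    rw [h3, hY]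
    have h4 : K1 / q * Real.exp (K1 ^ 2 / 24) * (δ * q) = δ * M := by
      rw [hM]
      field_simp
    rw [h4, hδ]
    exact (div_mul_cancel₀ _ hM0.ne').le
  · intro θ _
    exact circ_b hh hκ hn hNh s θ hs16

end Pool.NL48
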