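import Pool.Agent.NL48.Cen
import Pool.Agent.NL48.CenLA

set_option autoImplicit false

/-!
# NL48/CenL: THE CENTRE for heights `≤ c N` (without logarithm), `|2j - (N - G)| ≤ A √N`
-/

open Polynomial

namespace Pool.NL48

open Pool.HB45 Pool.PH43 Pool.SC45

/-- second moment of the positive part at `s = 0` -/
theorem adj_pos_sq {N : ℕ} {Q : Rel (N + 1)} {lab : Fin (N + 1) → ℕ} (hn : Nat' Q lab)
    (h : ℝ) (hh : 1 ≤ h) (hG : NL25.GG Q ≤ h) :
    ∑ g ∈ LE Q, (max ((adj Q g : ℝ) - NL25.GG Q) 0) ^ 2 ≤ 500 * h * (LE Q).card := by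
  set G := NL25.GG Q with hGd
  have hG0 : 0 ≤ G := NL25.GG_nonneg Q
  have hc0 : (0 : ℝ) < (LE Q).card := NL25.card_pos hn
  -- `q = 1 / (4 √h)`
  obtain ⟨r, hr⟩ : ∃ r, r = Real.sqrt h := ⟨_, rfl⟩
  have hrr : r * r = h := by
    rw [hr]
    exact Real.mul_self_sqrt (by linarith)
  have hr1 : 1 ≤ r := by
    rw [hr, Real.one_le_sqrt]
    exact hh
  have hr0 : 0 < r := by linarith
  obtain ⟨q, hq⟩ : ∃ q, q = 1 / (4 * r) := ⟨_, rfl⟩
  have hq0 : 0 < q := by
    rw [hq]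
    positivity
  have hq1 : q ≤ 1 / 4 := by
    rw [hq]
    refine one_div_le_one_div_of_le (by norm_num) ?_
    linarith
  have hqh : q ^ 2 * h = 1 / 16 := by
    rw [hq, ← hrr]
    field_simp
    norm_num
  obtain ⟨v, hv⟩ : ∃ v, v = q - 2 * q ^ 2 := ⟨_, rfl⟩
  have hv1 : q / 2 ≤ v := by
    rw [hv]
    nlinarith
  have hv0 : 0 < v := by linarith
  have hUP := GE63.UP hn q hq0.le hq1
  rw [← hv] at hUP
  have hUP' : ∑ g ∈ LE Q, Real.exp (v * ((adj Q g : ℝ) - G)) ≤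
      (LE Q).card * Real.exp (3 * q ^ 2 * G) := by
    have e1 : ∀ g : Equiv.Perm (Fin (N + 1)), Real.exp (v * ((adj Q g : ℝ) - G)) =
        Real.exp (-(v * G)) * Real.exp (v * adj Q g) := by
      intro g
      rw [← Real.exp_add]
      congr 1
      ring
    calc ∑ g ∈ LE Q, Real.exp (v * ((adj Q g : ℝ) - G))
        = Real.exp (-(v * G)) * ∑ g ∈ LE Q, Real.exp (v * adj Q g) := by
          rw [Finset.mul_sum]
          exact Finset.sum_congr rfl fun g _ => e1 g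
      _ ≤ Real.exp (-(v * G)) * ((LE Q).card * Real.exp ((q + q ^ 2) * G)) :=
          mul_le_mul_of_nonneg_left hUP (Real.exp_pos _).le
      _ = (LE Q).card * Real.exp (3 * q ^ 2 * G) := by
          rw [mul_left_comm, ← Real.exp_add]
          congr 2
          rw [hv]
          ring
  -- `e^x ≥ 1 + x + (x⁺)²/2`
  have hexp : ∀ x : ℝ, 1 + x + (max x 0) ^ 2 / 2 ≤ Real.exp x := by
    intro x
    rcases le_total 0 x with hx | hx
    · rw [max_eq_left hx]
      exact Real.quadratic_le_exp_of_nonneg hx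
    · rw [max_eq_right hx]
      have := Real.add_one_le_exp x
      linarith
  have hsum0 : ∑ g ∈ LE Q, ((adj Q g : ℝ) - G) = 0 := by
    rw [Finset.sum_sub_distrib, Finset.sum_const, nsmul_eq_mul, hGd]
    unfold NL25.GG
    rw [mul_div_cancel₀ _ hc0.ne', sub_self]
  have hlow : (LE Q).card + v ^ 2 / 2 * ∑ g ∈ LE Q, (max ((adj Q g : ℝ) - G) 0) ^ 2 ≤
      ∑ g ∈ LE Q, Real.exp (v * ((adj Q g : ℝ) - G)) := by
    have e2 : ((LE Q).card : ℝ) + v ^ 2 / 2 * ∑ g ∈ LE Q, (max ((adj Q g : ℝ) - G) 0) ^ 2 =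
        ∑ g ∈ LE Q, (1 + v * ((adj Q g : ℝ) - G) +
          (max (v * ((adj Q g : ℝ) - G)) 0) ^ 2 / 2) := by
      have e3 : ∀ g : Equiv.Perm (Fin (N + 1)), (max (v * ((adj Q g : ℝ) - G)) 0) ^ 2 / 2 =
          v ^ 2 / 2 * (max ((adj Q g : ℝ) - G) 0) ^ 2 := by
        intro g
        have e4 : max (v * ((adj Q g : ℝ) - G)) 0 = v * max ((adj Q g : ℝ) - G) 0 := by
          rw [mul_max_of_nonneg _ _ hv0.le, mul_zero]
        rw [e4]
        ring
      simp only [e3]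
      rw [Finset.sum_add_distrib, Finset.sum_add_distrib, ← Finset.mul_sum, ← Finset.mul_sum,
        hsum0, Finset.sum_const, nsmul_eq_mul]
      ring
    rw [e2]
    exact Finset.sum_le_sum fun g _ => hexp _
  have hexp2 : Real.exp (3 * q ^ 2 * G) ≤ 1 + 4 * q ^ 2 * G := by
    have h1 : q ^ 2 * G ≤ 1 / 16 := by
      have := mul_le_mul_of_nonneg_left hG (sq_nonneg q)
      linarith
    have h0 : 0 ≤ q ^ 2 * G := mul_nonneg (sq_nonneg q) hG0
    have h2 : Real.exp (3 * q ^ 2 * G) ≤ 1 / (1 - 3 * q ^ 2 * G) := by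
      have h3 := Real.add_one_le_exp (-(3 * q ^ 2 * G))
      rw [le_div_iff₀ (by nlinarith)]
      have h4 : Real.exp (3 * q ^ 2 * G) * Real.exp (-(3 * q ^ 2 * G)) = 1 := by
        rw [← Real.exp_add]
        simp
      have h5 := mul_le_mul_of_nonneg_left h3 (Real.exp_pos (3 * q ^ 2 * G)).le
      linarith
    refine h2.trans ?_
    rw [div_le_iff₀ (by nlinarith)]
    nlinarith
  have h9 : v ^ 2 / 2 * ∑ g ∈ LE Q, (max ((adj Q g : ℝ) - G) 0) ^ 2 ≤
      (LE Q).card * (4 * q ^ 2 * G) := by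
    have h10 : ((LE Q).card : ℝ) * Real.exp (3 * q ^ 2 * G) ≤
        (LE Q).card * (1 + 4 * q ^ 2 * G) := mul_le_mul_of_nonneg_left hexp2 hc0.le
    have h11 := hlow.trans (hUP'.trans h10)
    linarith
  set S := ∑ g ∈ LE Q, (max ((adj Q g : ℝ) - G) 0) ^ 2 with hS
  have hS0 : 0 ≤ S := Finset.sum_nonneg fun g _ => sq_nonneg _
  have h12 : q ^ 2 / 8 * S ≤ v ^ 2 / 2 * S := by
    refine mul_le_mul_of_nonneg_right ?_ hS0
    have : (q / 2) ^ 2 ≤ v ^ 2 := pow_le_pow_left₀ (by positivity) hv1 2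
    nlinarith
  have h13 : q ^ 2 * S ≤ q ^ 2 * (32 * G * (LE Q).card) := by
    nlinarith
  have h14 : S ≤ 32 * G * (LE Q).card := le_of_mul_le_mul_left h13 (by positivity)
  calc S ≤ 32 * G * (LE Q).card := h14
    _ ≤ 500 * h * (LE Q).card := by
        refine mul_le_mul_of_nonneg_right ?_ hc0.le
        linarith

/-- (I1) without logarithm -/
theorem adj_abs_lin (A ε : ℝ) (hA : 0 < A) (hε : 0 < ε) : ∃ c : ℝ, 0 < c ∧ ∃ N0 : ℕ, ∀ N ≥ N0,
    ∀ h : ℕ, 1 ≤ h → (h : ℝ) ≤ c * N → ∀ (Q : Rel (N + 1)) (κ lab : Fin (N + 1) → ℕ),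
    Lev h Q κ → Nat' Q lab → ∀ s : ℝ, |s| ≤ A / Real.sqrt N →
    ∑ g ∈ LE Q, |(adj Q g : ℝ) - NL25.GG Q| * Real.exp (s * NL25.Xf lab g / 2) ≤
      ε * Real.sqrt N * NL25.MG Q lab s ∧
    ∑ g ∈ LE Q, (adj Q g : ℝ) * Real.exp (s * NL25.Xf lab g / 2) ≤
      (h + Real.sqrt N) * NL25.MG Q lab s := by
  obtain ⟨k, hk⟩ : ∃ k, k = min (1 / 4) (min (ε / (28 * A)) (min (1 / (14 * A))
    (ε / (4 * (23 * Real.exp (9 / 2 * A ^ 2)))))) := ⟨_, rfl⟩
  have hk0 : 0 < k := by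
    rw [hk]
    positivity
  have hk1 : k ≤ 1 / 4 := by
    rw [hk]
    exact min_le_left _ _
  have hk2 : 14 * k * A ≤ ε / 2 := by
    have h1 : k ≤ ε / (28 * A) := by
      rw [hk]
      exact (min_le_right _ _).trans (min_le_left _ _)
    rw [le_div_iff₀ (by positivity)] at h1
    linarith
  have hk3 : 14 * k * A ≤ 1 := by
    have h1 : k ≤ 1 / (14 * A) := by
      rw [hk]
      exact (min_le_right _ _).trans ((min_le_right _ _).trans (min_le_left _ _))
    rw [le_div_iff₀ (by positivity)] at h1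
    linarith
  have hk4 : 23 * Real.exp (9 / 2 * A ^ 2) * k ≤ ε / 4 := by
    have h1 : k ≤ ε / (4 * (23 * Real.exp (9 / 2 * A ^ 2))) := by
      rw [hk]
      exact (min_le_right _ _).trans ((min_le_right _ _).trans (min_le_right _ _))
    rw [le_div_iff₀ (by positivity)] at h1
    linarith
  obtain ⟨B, hB⟩ : ∃ B, B = 48 * A / k + 1 := ⟨_, rfl⟩
  have hB0 : 0 < B := by
    rw [hB]
    positivity
  refine ⟨k ^ 2, by positivity, ⌈B ^ 2⌉₊, fun N hN h hh hhN Q κ lab hκ hn s hs => ?_⟩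
  have hh' : (1 : ℝ) ≤ h := by exact_mod_cast hh
  obtain ⟨q, hq⟩ : ∃ q, q = Real.sqrt (N : ℝ) := ⟨_, rfl⟩
  have hBq : B ≤ q := by
    rw [hq]
    exact Real.le_sqrt_of_sq_le ((Nat.le_ceil _).trans (by exact_mod_cast hN))
  have hq0 : 0 < q := lt_of_lt_of_le hB0 hBq
  have hqq : q * q = N := by
    rw [hq]
    exact Real.mul_self_sqrt (Nat.cast_nonneg _)
  rw [← hq] at hs ⊢
  have hsq : |s| * q ≤ A := by
    rw [le_div_iff₀ hq0] at hs
    exact hs
  have hsN : |s| * N ≤ A * q := by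
    rw [← hqq, ← mul_assoc]
    exact mul_le_mul_of_nonneg_right hsq hq0.le
  have hs2N : s ^ 2 * N ≤ A ^ 2 := by
    have h1 : (|s| * q) ^ 2 ≤ A ^ 2 := pow_le_pow_left₀ (by positivity) hsq 2
    have h2 : (|s| * q) ^ 2 = s ^ 2 * N := by
      rw [mul_pow, sq_abs, ← hqq]
      ring
    rwa [h2] at h1
  have hsk : 2 * |s| ≤ k / 24 := by
    have h1 : 48 * A / k ≤ q := by linarith
    rw [div_le_iff₀ hk0] at h1
    have h2 : 2 * |s| * q ≤ k / 24 * q := by linarith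
    exact le_of_mul_le_mul_right h2 hq0
  have hG0 : 0 ≤ NL25.GG Q := NL25.GG_nonneg Q
  have hGh : NL25.GG Q ≤ h := NL25.GG_le hκ hn
  have hGk : NL25.GG Q ≤ k ^ 2 * N := hGh.trans hhN
  have hc0 : (0 : ℝ) < (LE Q).card := NL25.card_pos hn
  have hMG := NL25.MG_pos hn s
  have hmean := GE63.adj_mean hn k s hk0 hk1 hGk (by linarith [abs_nonneg s])
  have hmean2 : |NL25.mA Q lab s - NL25.GG Q| ≤ 14 * k * A * q := by
    refine hmean.trans ?_
    have := mul_le_mul_of_nonneg_left hsN (by positivity : (0 : ℝ) ≤ 14 * k)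
    linarith
  have hmA : ∑ g ∈ LE Q, (adj Q g : ℝ) * Real.exp (s * NL25.Xf lab g / 2) =
      NL25.mA Q lab s * NL25.MG Q lab s := by
    unfold NL25.mA
    rw [div_mul_cancel₀ _ hMG.ne']
  have ha := abs_le.1 hmean2
  constructor
  · -- positive part
    set P := ∑ g ∈ LE Q, max ((adj Q g : ℝ) - NL25.GG Q) 0 * Real.exp (s * NL25.Xf lab g / 2) with hP
    have hCS : P ^ 2 ≤ (∑ g ∈ LE Q, (max ((adj Q g : ℝ) - NL25.GG Q) 0) ^ 2) *
        ∑ g ∈ LE Q, (Real.exp (s * NL25.Xf lab g / 2)) ^ 2 := Finset.sum_mul_sq_le_sq_mul_sq _ _ _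
    have hM2 : ∑ g ∈ LE Q, (Real.exp (s * NL25.Xf lab g / 2)) ^ 2 = NL25.MG Q lab (2 * s) := by
      unfold NL25.MG
      refine Finset.sum_congr rfl fun g _ => ?_
      rw [← Real.exp_nat_mul]
      congr 1
      push_cast
      ring
    have hlog := GE63.logMG_le hn k (2 * s) hk0 hk1 hGk (by
      rw [abs_mul, abs_of_pos (by norm_num : (0 : ℝ) < 2)]
      exact hsk)
    have hjen := NL25.jensen hn s
    have hM3 : NL25.MG Q lab (2 * s) * (LE Q).card ≤
        Real.exp (9 * A ^ 2) * NL25.MG Q lab s ^ 2 := by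
      calc NL25.MG Q lab (2 * s) * (LE Q).card ≤ ((LE Q).card *
            Real.exp (2 * s * NL25.GG Q / 2 + 9 / 4 * (2 * s) ^ 2 * N)) * (LE Q).card :=
            mul_le_mul_of_nonneg_right hlog hc0.le
        _ = Real.exp (9 * (s ^ 2 * N)) * ((LE Q).card * Real.exp (s * NL25.GG Q / 2)) ^ 2 := by
            have e1 : Real.exp (2 * s * NL25.GG Q / 2 + 9 / 4 * (2 * s) ^ 2 * N) =
                Real.exp (9 * (s ^ 2 * N)) * Real.exp (s * NL25.GG Q / 2) ^ 2 := by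
              rw [← Real.exp_nat_mul, ← Real.exp_add]
              congr 1
              push_cast
              ring
            rw [e1]
            ring
        _ ≤ Real.exp (9 * A ^ 2) * NL25.MG Q lab s ^ 2 := by
            refine mul_le_mul ?_ ?_ (by positivity) (Real.exp_pos _).le
            · rw [Real.exp_le_exp]
              linarith
            · exact pow_le_pow_left₀ (by positivity) hjen 2
    have hP2 : P ^ 2 ≤ (23 * Real.exp (9 / 2 * A ^ 2) * k * q * NL25.MG Q lab s) ^ 2 := by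
      have h1 := adj_pos_sq hn h hh' hGh
      calc P ^ 2 ≤ _ := hCS
        _ ≤ 500 * h * (LE Q).card * NL25.MG Q lab (2 * s) := by
            rw [hM2]
            exact mul_le_mul_of_nonneg_right h1 (NL25.MG_pos hn _).le
        _ = 500 * h * (NL25.MG Q lab (2 * s) * (LE Q).card) := by ring
        _ ≤ 500 * (k ^ 2 * N) * (Real.exp (9 * A ^ 2) * NL25.MG Q lab s ^ 2) := by
            refine mul_le_mul ?_ hM3 (mul_nonneg (NL25.MG_pos hn _).le hc0.le) (by positivity)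
            linarith
        _ ≤ 529 * (k ^ 2 * N) * (Real.exp (9 * A ^ 2) * NL25.MG Q lab s ^ 2) := by
            refine mul_le_mul_of_nonneg_right ?_ (by positivity)
            have : 0 ≤ k ^ 2 * (N : ℝ) := by positivity
            linarith
        _ = _ := by
            have e2 : Real.exp (9 * A ^ 2) = Real.exp (9 / 2 * A ^ 2) ^ 2 := by
              rw [← Real.exp_nat_mul]
              congr 1
              push_cast
              ring
            rw [e2, ← hqq]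
            ring
    have hP3 : P ≤ 23 * Real.exp (9 / 2 * A ^ 2) * k * q * NL25.MG Q lab s :=
      le_of_sq_le_sq hP2 (by positivity)
    have hP4 : P ≤ ε / 4 * q * NL25.MG Q lab s := by
      refine hP3.trans ?_
      exact mul_le_mul_of_nonneg_right (mul_le_mul_of_nonneg_right hk4 hq0.le) hMG.le
    have hid : ∑ g ∈ LE Q, |(adj Q g : ℝ) - NL25.GG Q| * Real.exp (s * NL25.Xf lab g / 2) =
        2 * P - (NL25.mA Q lab s - NL25.GG Q) * NL25.MG Q lab s := by
      have e3 : ∀ x : ℝ, |x| = 2 * max x 0 - x := by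
        intro x
        rcases le_total 0 x with hx | hx
        · rw [abs_of_nonneg hx, max_eq_left hx]
          ring
        · rw [abs_of_nonpos hx, max_eq_right hx]
          ring
      have e4 : (NL25.mA Q lab s - NL25.GG Q) * NL25.MG Q lab s =
          ∑ g ∈ LE Q, ((adj Q g : ℝ) - NL25.GG Q) * Real.exp (s * NL25.Xf lab g / 2) := by
        rw [sub_mul, ← hmA]
        unfold NL25.MG
        rw [Finset.mul_sum, ← Finset.sum_sub_distrib]
        exact Finset.sum_congr rfl fun g _ => by ring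
      rw [e4, hP, Finset.mul_sum, ← Finset.sum_sub_distrib]
      refine Finset.sum_congr rfl fun g _ => ?_
      rw [e3]
      ring
    rw [hid]
    have h5 : -(ε / 2 * q) ≤ NL25.mA Q lab s - NL25.GG Q := by
      have := mul_le_mul_of_nonneg_right hk2 hq0.le
      linarith [ha.1]
    have h6 := mul_le_mul_of_nonneg_right h5 hMG.le
    linarith
  · rw [hmA]
    refine mul_le_mul_of_nonneg_right ?_ hMG.le
    have := mul_le_mul_of_nonneg_right hk3 hq0.le
    linarith [ha.2]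

/-- the bad windows and the comparable neighbours in a tilt -/
theorem nw_le_adj {N : ℕ} {Q : Rel (N + 1)} {lab : Fin (N + 1) → ℕ} (hn : Nat' Q lab) (s : ℝ)
    (hs2 : |s| ≤ 1 / 2) :
    ∑ g ∈ LE Q, (nw Q g : ℝ) * Real.exp (s * Xf lab g / 2) ≤
      18 * ∑ g ∈ LE Q, (adj Q g : ℝ) * Real.exp (s * Xf lab g / 2) := by
  have he : Real.exp (3 * |s|) ≤ 5 := by
    have h3 : Real.exp (3 * |s|) ≤ Real.exp (3 / 2) := by
      rw [Real.exp_le_exp]
      linarith
    have h4 : Real.exp (3 / 2 : ℝ) ≤ 5 := by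
      have h5 : Real.exp (3 / 2 : ℝ) * Real.exp (3 / 2) = Real.exp 1 * Real.exp 1 * Real.exp 1 := by
        rw [← Real.exp_add, ← Real.exp_add, ← Real.exp_add]
        norm_num
      have h6 := Real.exp_one_lt_d9
      have h7 := Real.exp_pos (1 : ℝ)
      have h8 := Real.exp_pos (3 / 2 : ℝ)
      have h9 : Real.exp 1 * Real.exp 1 * Real.exp 1 ≤ 25 := by
        have a1 : Real.exp 1 ≤ 2.72 := by linarith
        have a2 : Real.exp 1 * Real.exp 1 ≤ 2.72 * 2.72 := mul_le_mul a1 a1 h7.le (by norm_num)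
        have a3 := mul_le_mul a2 a1 h7.le (by norm_num : (0 : ℝ) ≤ 2.72 * 2.72)
        norm_num at a3
        linarith
      nlinarith
    exact h3.trans h4
  set T := ∑ g ∈ LE Q, (adj Q g : ℝ) * Real.exp (s * Xf lab g / 2) with hT
  have hT0 : 0 ≤ T := Finset.sum_nonneg fun g _ => by positivity
  have m2 : ∑ g ∈ LE Q, (GE63.AA Q 2 g : ℝ) * Real.exp (s * Xf lab g / 2) ≤
      Real.exp (3 * |s|) * T := GE63.move hn 2 le_rfl s
  have m3 : ∑ g ∈ LE Q, (GE63.AA Q 3 g : ℝ) * Real.exp (s * Xf lab g / 2) ≤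
      Real.exp (3 * |s|) * T := GE63.move hn 3 (by norm_num) s
  have m4 : Real.exp (3 * |s|) * T ≤ 5 * T := mul_le_mul_of_nonneg_right he hT0
  have m1 : ∑ g ∈ LE Q, (nw Q g : ℝ) * Real.exp (s * Xf lab g / 2) ≤
      3 * T + 2 * ∑ g ∈ LE Q, (GE63.AA Q 2 g : ℝ) * Real.exp (s * Xf lab g / 2) +
        ∑ g ∈ LE Q, (GE63.AA Q 3 g : ℝ) * Real.exp (s * Xf lab g / 2) := by
    rw [hT, Finset.mul_sum, Finset.mul_sum, ← Finset.sum_add_distrib, ← Finset.sum_add_distrib]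
    refine Finset.sum_le_sum fun g hg => ?_
    have a1 : (nw Q g : ℝ) ≤ 3 * adj Q g + 2 * GE63.AA Q 2 g + GE63.AA Q 3 g := by
      refine le_trans ?_ (GE63.bad4_le g hg)
      exact_mod_cast nw_le_windows g hg
    calc (nw Q g : ℝ) * Real.exp (s * Xf lab g / 2) ≤
          (3 * adj Q g + 2 * GE63.AA Q 2 g + GE63.AA Q 3 g) * Real.exp (s * Xf lab g / 2) :=
          mul_le_mul_of_nonneg_right a1 (Real.exp_pos _).le
      _ = _ := by ring
  linarith

/-- THE CENTRE, no logarithm. -/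
theorem center_lin (A : ℝ) (hA : 0 < A) : ∃ c : ℝ, 0 < c ∧ ∃ N0 : ℕ, ∀ N ≥ N0, ∀ h : ℕ, 1 ≤ h →
    (h : ℝ) ≤ c * N → ∀ (Q : Rel (N + 1)) (κ lab : Fin (N + 1) → ℕ),
    Lev h Q κ → Nat' Q lab →
    ∀ j : ℕ, 1 ≤ j → |2 * (j : ℝ) - (N - Gm Q)| ≤ A * Real.sqrt N →
      0 < w Q lab j ∧ w Q lab (j - 1) * w Q lab (j + 1) ≤ w Q lab j ^ 2 := by
  obtain ⟨ε₁, hε₁, c1, hc1, N1, h1⟩ := cen_core_lin A hA
  obtain ⟨c2, hc2, N2, h2⟩ := adj_abs_lin (6 * A) ε₁ (by positivity) hε₁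
  refine ⟨min c1 c2, by positivity, max N1 (max N2 ⌈(12 * A) ^ 2⌉₊),
    fun N hN h hh hhN Q κ lab hκ hn => ?_⟩
  have g1 : N1 ≤ N := (le_max_left _ _).trans hN
  have g2 : N2 ≤ N := (le_max_left _ _).trans ((le_max_right _ _).trans hN)
  have g3 : ⌈(12 * A) ^ 2⌉₊ ≤ N := (le_max_right _ _).trans ((le_max_right _ _).trans hN)
  have hN0 : (0 : ℝ) ≤ N := Nat.cast_nonneg _
  have k1 : (h : ℝ) ≤ c1 * N := hhN.trans (mul_le_mul_of_nonneg_right (min_le_left _ _) hN0)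
  have k2 : (h : ℝ) ≤ c2 * N := hhN.trans (mul_le_mul_of_nonneg_right (min_le_right _ _) hN0)
  refine h1 N g1 h hh k1 Q κ lab hκ hn fun s hs => ?_
  obtain ⟨a1, a2⟩ := h2 N g2 h hh k2 Q κ lab hκ hn s hs
  refine ⟨a1, ?_⟩
  have hq : 12 * A ≤ Real.sqrt N :=
    Real.le_sqrt_of_sq_le ((Nat.le_ceil _).trans (by exact_mod_cast g3))
  have hq0 : 0 < Real.sqrt (N : ℝ) := lt_of_lt_of_le (by positivity) hq
  have hs2 : |s| ≤ 1 / 2 := by
    refine hs.trans ?_
    rw [div_le_iff₀ hq0]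
    linarith
  have a3 := nw_le_adj hn s hs2
  have a4 : ∑ g ∈ LE Q, (adj Q g : ℝ) * Real.exp (s * Xf lab g / 2) ≤
      (h + Real.sqrt N) * MR Q lab s := a2
  have a5 : 0 ≤ (h + Real.sqrt N) * MR Q lab s :=
    mul_nonneg (add_nonneg (Nat.cast_nonneg _) hq0.le) (MR_pos hn s).le
  calc _ ≤ _ := a3
    _ ≤ 18 * ((h + Real.sqrt N) * MR Q lab s) := by linarith
    _ ≤ 20 * (h + Real.sqrt N) * MR Q lab s := by linarith

end Pool.NL48
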