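import Pool.Agent.NL48.CenB
import Pool.Agent.GE63.Ent

set_option autoImplicit false

/-!
# NL48/Cen: THE CENTRE for heights `≤ c N / log N`
-/

open Polynomial

namespace Pool.NL48

open Pool.HB45 Pool.PH43 Pool.SC45

open Classical in
/-- the interior windows which are not antichains, as windows `{o, …, o + 3}` -/
theorem nw_le_windows {N : ℕ} {Q : Rel (N + 1)} (g : Equiv.Perm (Fin (N + 1))) (hg : g ∈ LE Q) :
    nw Q g ≤ (Finset.univ.filter fun o : Fin (N + 1) => ∃ h : o.val + 3 < N + 1,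
      ∃ i j : Fin (N + 1), o ≤ i ∧ i < j ∧ j.val ≤ o.val + 3 ∧ Q (g i) (g j)).card := by
  unfold nw
  rw [mem_LE] at hg
  refine Finset.card_le_card_of_injOn
    (fun p : Fin N => (⟨p.val - 1, by have := p.isLt; omega⟩ : Fin (N + 1))) ?_ ?_
  · intro p hp
    rw [Finset.mem_coe, Finset.mem_filter] at hp
    obtain ⟨-, hi, hA⟩ := hp
    rw [Finset.mem_coe, Finset.mem_filter]
    refine ⟨Finset.mem_univ _, ?_⟩
    have h1 := hi.1
    have h2 := hi.2
    unfold An at hA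
    have h3 : ¬ Anti (int_le hi) Q g := fun h => hA ⟨hi, h⟩
    unfold Anti at h3
    push Not at h3
    obtain ⟨a, b, hab⟩ := h3
    unfold winRel at hab
    have h4 := hg _ _ hab
    have h5 := a.isLt
    have h6 := b.isLt
    refine ⟨by simp only; omega, wpos (int_le hi) a, wpos (int_le hi) b, ?_, h4, ?_, hab⟩
    · rw [Fin.le_def]
      simp only [wpos]
      omega
    · simp only [wpos]
      omega
  · intro p hp p' hp' hpp
    rw [Finset.mem_coe, Finset.mem_filter] at hp hp'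
    have h1 := hp.2.1.1
    have h2 := hp'.2.1.1
    have h3 : p.val - 1 = p'.val - 1 := congrArg Fin.val hpp
    ext
    omega

/-- (I2) -/
theorem nw_moment {A : ℝ} (hA : 0 < A) : ∃ c : ℝ, 0 < c ∧ ∃ N0 : ℕ, ∀ N ≥ N0, ∀ h : ℕ,
    1 ≤ h → (h : ℝ) * Real.log N ≤ c * N → ∀ (Q : Rel (N + 1)) (κ lab : Fin (N + 1) → ℕ),
    Lev h Q κ → Nat' Q lab → ∀ s : ℝ, |s| ≤ A * Real.sqrt (Real.log N / N) →
    ∑ g ∈ LE Q, (nw Q g : ℝ) * Real.exp (s * Xf lab g / 2) ≤
      20 * (h + Real.sqrt N) * MR Q lab s := by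
  obtain ⟨c, hc, N1, h1⟩ := GE63.mA_le hA
  obtain ⟨N2, hN2⟩ := log_le_sqrt (1 / (4 * A ^ 2 + 1)) (by positivity)
  refine ⟨c, hc, max N1 (max N2 1), fun N hN h hh hhN Q κ lab hκ hn s hs => ?_⟩
  have g1 : N1 ≤ N := (le_max_left _ _).trans hN
  have g2 : N2 ≤ N := (le_max_left _ _).trans ((le_max_right _ _).trans hN)
  have g3 : 1 ≤ N := (le_max_right _ _).trans ((le_max_right _ _).trans hN)
  have hN1 : (1 : ℝ) ≤ N := by exact_mod_cast g3
  have hN0 : (0 : ℝ) < N := by linarith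
  have h2 := h1 N g1 h hh hhN Q κ lab hκ hn s hs
  -- `|s| ≤ 1/2`
  have hs2 : |s| ≤ 1 / 2 := by
    have h3 := hN2 N g2
    have h4 : Real.sqrt (N : ℝ) ≤ N := by
      rw [Real.sqrt_le_left hN0.le]
      nlinarith
    have h5 : Real.log N ≤ 1 / (4 * A ^ 2 + 1) * N :=
      h3.trans (mul_le_mul_of_nonneg_left h4 (by positivity))
    have h6 : Real.log N / N ≤ 1 / (4 * A ^ 2 + 1) := by
      rw [div_le_iff₀ hN0]
      exact h5
    have h7 : Real.sqrt (Real.log N / N) ≤ 1 / (2 * A) := by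
      refine Real.sqrt_le_iff.2 ⟨by positivity, h6.trans ?_⟩
      rw [div_pow, one_pow]
      refine one_div_le_one_div_of_le (by positivity) ?_
      nlinarith
    calc |s| ≤ A * Real.sqrt (Real.log N / N) := hs
      _ ≤ A * (1 / (2 * A)) := mul_le_mul_of_nonneg_left h7 hA.le
      _ = 1 / 2 := by field_simp
  have he : Real.exp (3 * |s|) ≤ 5 := by
    have h3 : Real.exp (3 * |s|) ≤ Real.exp (3 / 2) := by
      rw [Real.exp_le_exp]
      linarith
    have h4 : Real.exp (3 / 2 : ℝ) ≤ 5 := by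
      have h5 : Real.exp (3 / 2 : ℝ) * Real.exp (3 / 2) = Real.exp 1 * Real.exp 1 * Real.exp 1 := by
        rw [← Real.exp_add, ← Real.exp_add, ← Real.exp_add]
        norm_num
      have h6 := Real.exp_one_lt_d9
      have h7 := Real.exp_pos (1 : ℝ)
      have h8 := Real.exp_pos (3 / 2 : ℝ)
      have h9 : Real.exp 1 * Real.exp 1 * Real.exp 1 ≤ 25 := by
        have a1 : Real.exp 1 ≤ 2.72 := by linarith
        have a2 : Real.exp 1 * Real.exp 1 ≤ 2.72 * 2.72 := mul_le_mul a1 a1 h7.le (by norm_num)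
        have a3 := mul_le_mul a2 a1 h7.le (by norm_num : (0 : ℝ) ≤ 2.72 * 2.72)
        norm_num at a3
        linarith
      nlinarith
    exact h3.trans h4
  set T := ∑ g ∈ LE Q, (adj Q g : ℝ) * Real.exp (s * Xf lab g / 2) with hT
  have hT0 : 0 ≤ T := Finset.sum_nonneg fun g _ => by positivity
  have hT1 : T ≤ (h + Real.sqrt N) * MR Q lab s := h2
  have m2 : ∑ g ∈ LE Q, (GE63.AA Q 2 g : ℝ) * Real.exp (s * Xf lab g / 2) ≤
      Real.exp (3 * |s|) * T := GE63.move hn 2 le_rfl s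
  have m3 : ∑ g ∈ LE Q, (GE63.AA Q 3 g : ℝ) * Real.exp (s * Xf lab g / 2) ≤
      Real.exp (3 * |s|) * T := GE63.move hn 3 (by norm_num) s
  have m4 : Real.exp (3 * |s|) * T ≤ 5 * T := mul_le_mul_of_nonneg_right he hT0
  have m1 : ∑ g ∈ LE Q, (nw Q g : ℝ) * Real.exp (s * Xf lab g / 2) ≤
      3 * T + 2 * ∑ g ∈ LE Q, (GE63.AA Q 2 g : ℝ) * Real.exp (s * Xf lab g / 2) +
        ∑ g ∈ LE Q, (GE63.AA Q 3 g : ℝ) * Real.exp (s * Xf lab g / 2) := by
    rw [hT, Finset.mul_sum, Finset.mul_sum, ← Finset.sum_add_distrib, ← Finset.sum_add_distrib]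
    refine Finset.sum_le_sum fun g hg => ?_
    have a1 : (nw Q g : ℝ) ≤ 3 * adj Q g + 2 * GE63.AA Q 2 g + GE63.AA Q 3 g := by
      refine le_trans ?_ (GE63.bad4_le g hg)
      exact_mod_cast nw_le_windows g hg
    calc (nw Q g : ℝ) * Real.exp (s * Xf lab g / 2) ≤
          (3 * adj Q g + 2 * GE63.AA Q 2 g + GE63.AA Q 3 g) * Real.exp (s * Xf lab g / 2) :=
          mul_le_mul_of_nonneg_right a1 (Real.exp_pos _).le
      _ = _ := by ring
  have hB0 : 0 ≤ (h + Real.sqrt N) * MR Q lab s := le_trans hT0 hT1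
  calc _ ≤ _ := m1
    _ ≤ 18 * T := by linarith
    _ ≤ 18 * ((h + Real.sqrt N) * MR Q lab s) := by linarith
    _ ≤ 20 * (h + Real.sqrt N) * MR Q lab s := by linarith

/-- THE CENTRE. -/
theorem center_mid (A : ℝ) (hA : 0 < A) : ∃ c : ℝ, 0 < c ∧ ∃ N0 : ℕ, ∀ N ≥ N0, ∀ h : ℕ, 1 ≤ h →
    (h : ℝ) * Real.log N ≤ c * N → ∀ (Q : Rel (N + 1)) (κ lab : Fin (N + 1) → ℕ),
    Lev h Q κ → Nat' Q lab →
    ∀ j : ℕ, 1 ≤ j → |2 * (j : ℝ) - (N - Gm Q)| ≤ A * Real.sqrt (N * Real.log N) →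
      0 < w Q lab j ∧ w Q lab (j - 1) * w Q lab (j + 1) ≤ w Q lab j ^ 2 := by
  obtain ⟨ε₁, hε₁, c1, hc1, N1, h1⟩ := cen_core A hA
  obtain ⟨c2, hc2, N2, h2⟩ := GE63.adj_abs (6 * A) ε₁ (by positivity) hε₁
  obtain ⟨c3, hc3, N3, h3⟩ := nw_moment (A := 6 * A) (by positivity)
  refine ⟨min c1 (min c2 c3), by positivity, max N1 (max N2 N3),
    fun N hN h hh hhN Q κ lab hκ hn => ?_⟩
  have g1 : N1 ≤ N := (le_max_left _ _).trans hN
  have g2 : N2 ≤ N := (le_max_left _ _).trans ((le_max_right _ _).trans hN)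
  have g3 : N3 ≤ N := (le_max_right _ _).trans ((le_max_right _ _).trans hN)
  have hN0 : (0 : ℝ) ≤ N := Nat.cast_nonneg _
  have k1 : (h : ℝ) * Real.log N ≤ c1 * N :=
    hhN.trans (mul_le_mul_of_nonneg_right (min_le_left _ _) hN0)
  have k2 : (h : ℝ) * Real.log N ≤ c2 * N :=
    hhN.trans (mul_le_mul_of_nonneg_right ((min_le_right _ _).trans (min_le_left _ _)) hN0)
  have k3 : (h : ℝ) * Real.log N ≤ c3 * N :=
    hhN.trans (mul_le_mul_of_nonneg_right ((min_le_right _ _).trans (min_le_right _ _)) hN0)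
  exact h1 N g1 h hh k1 Q κ lab hκ hn fun s hs =>
    ⟨h2 N g2 h hh k2 Q κ lab hκ hn s hs, h3 N g3 h hh k3 Q κ lab hκ hn s hs⟩

end Pool.NL48
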