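import Pool.Agent.HB45.Cent

set_option autoImplicit false

/-!
# NL48/Integ: log-concavity from the values on a circle
-/

open Polynomial

namespace Pool.NL48

open Pool.HB45

theorem ig_cos_lo {θ : ℝ} (hθ : |θ| ≤ Real.pi) : θ ^ 2 / 5 ≤ 1 - Real.cos θ := by
  have h := Real.cos_le_one_sub_mul_cos_sq hθ
  have hpi : Real.pi ^ 2 ≤ 10 := by
    have := Real.pi_lt_d2
    have := Real.pi_gt_three
    nlinarith
  have h2 : 1 / 5 ≤ 2 / Real.pi ^ 2 := by
    rw [div_le_div_iff₀ (by norm_num) (by positivity)]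
    linarith
  have h3 := mul_le_mul_of_nonneg_right h2 (sq_nonneg θ)
  linarith

theorem ig_cos_hi (θ : ℝ) : 2 - 2 * Real.cos θ ≤ θ ^ 2 := by
  have := Real.one_sub_sq_div_two_le_cos (x := θ)
  linarith

theorem ig_exp {x : ℝ} (hx : 0 < x) : Real.exp (-x) ≤ 2 / x ^ 2 := by
  have h := Real.quadratic_le_exp_of_nonneg hx.le
  have h1 : x ^ 2 / 2 ≤ Real.exp x := by linarith
  rw [Real.exp_neg, ← one_div, div_le_div_iff₀ (Real.exp_pos _) (by positivity)]
  linarith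

/-- lower bound for one half of the integral -/
theorem ig_half {G : ℝ → ℝ} (hG : Continuous G) {E ε a b q η' : ℝ} (hE : 0 ≤ E) (hε : 0 ≤ ε)
    (ha : 0 < a) (hab : a ≤ b) (hb : b ≤ Real.pi) (hq : 0 ≤ q) (hη : 0 ≤ η')
    (h1 : ∀ θ : ℝ, 0 ≤ θ → θ ≤ a → E / 4 * θ ^ 2 ≤ G θ)
    (h2 : ∀ θ : ℝ, a ≤ θ → θ ≤ b → -(ε * E) * θ ^ 2 ≤ G θ)
    (h3 : ∀ θ : ℝ, b ≤ θ → θ ≤ Real.pi → (-q) * θ ^ (-2 : ℤ) + (-η') ≤ G θ) :
    E / 4 * (a ^ 3 / 3) - ε * E * (b ^ 3 / 3) - q / b - 4 * η' ≤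
      ∫ θ in (0 : ℝ)..Real.pi, G θ := by
  have hb0 : 0 < b := lt_of_lt_of_le ha hab
  have hsplit : ∫ θ in (0 : ℝ)..Real.pi, G θ =
      (∫ θ in (0 : ℝ)..a, G θ) + (∫ θ in a..b, G θ) + ∫ θ in b..Real.pi, G θ := by
    rw [intervalIntegral.integral_add_adjacent_intervals (hG.intervalIntegrable _ _)
      (hG.intervalIntegrable _ _), intervalIntegral.integral_add_adjacent_intervals
      (hG.intervalIntegrable _ _) (hG.intervalIntegrable _ _)]
  have i1 : E / 4 * (a ^ 3 / 3) ≤ ∫ θ in (0 : ℝ)..a, G θ := by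
    have e : ∫ θ in (0 : ℝ)..a, E / 4 * θ ^ 2 = E / 4 * (a ^ 3 / 3) := by
      rw [intervalIntegral.integral_const_mul, integral_pow]
      norm_num
    rw [← e]
    exact intervalIntegral.integral_mono_on ha.le
      ((by fun_prop : Continuous fun θ : ℝ => E / 4 * θ ^ 2).intervalIntegrable _ _)
      (hG.intervalIntegrable _ _) fun θ hθ => h1 θ hθ.1 hθ.2
  have i2 : -(ε * E) * (b ^ 3 / 3) ≤ ∫ θ in a..b, G θ := by
    have e : ∫ θ in a..b, -(ε * E) * θ ^ 2 = -(ε * E) * ((b ^ 3 - a ^ 3) / 3) := by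
      rw [intervalIntegral.integral_const_mul, integral_pow]
      norm_num
    have h := intervalIntegral.integral_mono_on (μ := MeasureTheory.volume) hab
      ((by fun_prop : Continuous fun θ : ℝ => -(ε * E) * θ ^ 2).intervalIntegrable _ _)
      (hG.intervalIntegrable _ _) fun θ hθ => h2 θ hθ.1 hθ.2
    rw [e] at h
    have h5 : 0 ≤ ε * E * (a ^ 3 / 3) := by positivity
    linarith [(by ring : -(ε * E) * ((b ^ 3 - a ^ 3) / 3) =
      -(ε * E) * (b ^ 3 / 3) + ε * E * (a ^ 3 / 3))]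
  have i3 : -(q / b) - 4 * η' ≤ ∫ θ in b..Real.pi, G θ := by
    have hmem : (0 : ℝ) ∉ Set.uIcc b Real.pi := by
      rw [Set.uIcc_of_le hb]
      exact fun h => absurd h.1 (not_le.2 hb0)
    have hint : IntervalIntegrable (fun θ : ℝ => θ ^ (-2 : ℤ)) MeasureTheory.volume b Real.pi :=
      intervalIntegral.intervalIntegrable_zpow (Or.inr hmem)
    have e : ∫ θ in b..Real.pi, ((-q) * θ ^ (-2 : ℤ) + (-η')) =
        (-q) * (b⁻¹ - Real.pi⁻¹) + (Real.pi - b) * (-η') := by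
      rw [intervalIntegral.integral_add (hint.const_mul (-q))
          (intervalIntegrable_const : IntervalIntegrable (fun _ : ℝ => -η')
            MeasureTheory.volume b Real.pi),
        intervalIntegral.integral_const_mul, integral_zpow (Or.inr ⟨by norm_num, hmem⟩),
        intervalIntegral.integral_const, smul_eq_mul]
      norm_num
      left
      ring
    have h := intervalIntegral.integral_mono_on (μ := MeasureTheory.volume) hb
      ((hint.const_mul (-q)).add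
        (intervalIntegrable_const : IntervalIntegrable (fun _ : ℝ => -η')
          MeasureTheory.volume b Real.pi))
      (hG.intervalIntegrable _ _) fun θ hθ => h3 θ hθ.1 hθ.2
    rw [e] at h
    have hpi0 : 0 < Real.pi := Real.pi_pos
    have h5 : 0 ≤ q * Real.pi⁻¹ := by positivity
    have h6 : (Real.pi - b) * η' ≤ 4 * η' :=
      mul_le_mul_of_nonneg_right (by have := Real.pi_lt_four; linarith) hη
    rw [div_eq_mul_inv]
    linarith [(by ring : (-q) * (b⁻¹ - Real.pi⁻¹) + (Real.pi - b) * (-η') =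
      -(q * b⁻¹) + q * Real.pi⁻¹ - (Real.pi - b) * η')]
  rw [hsplit]
  linarith

theorem circle (κ : ℝ) (hκ : 0 < κ) : ∃ K1 : ℝ, 0 < K1 ∧ ∃ ε : ℝ, 0 < ε ∧ ∃ N0 : ℕ, ∀ N ≥ N0,
    ∀ (A : ℝ[X]) (r E η : ℝ) (j : ℕ), 0 < r → 0 < E → 0 ≤ η → η ≤ 1 / (N : ℝ) ^ 2 →
      (∀ k, 0 ≤ A.coeff k) → 1 ≤ j →
      (∀ θ : ℝ, |θ| ≤ K1 / Real.sqrt N →
        ‖aeval ((r : ℂ) * Complex.exp (θ * Complex.I)) A * Complex.exp (-(j * θ * Complex.I)) -
          (E * Real.exp (-(θ ^ 2 * N / 24)) : ℝ)‖ ≤ ε * E) →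
      (∀ θ : ℝ, |θ| ≤ Real.pi →
        ‖aeval ((r : ℂ) * Complex.exp (θ * Complex.I)) A‖ ≤
          2 * E * (Real.exp (-(κ * N * (1 - Real.cos θ))) + η)) →
      0 < A.coeff j ∧ A.coeff (j - 1) * A.coeff (j + 1) ≤ A.coeff j ^ 2 := by
  obtain ⟨K1, hK1, hK1κ⟩ : ∃ K1 : ℝ, 10 ^ 6 ≤ K1 ∧ 10 ^ 6 ≤ κ ^ 2 * K1 := by
    refine ⟨10 ^ 6 * (1 + 1 / κ ^ 2), ?_, ?_⟩
    · have : 0 < 1 / κ ^ 2 := by positivity
      linarith
    · have e : κ ^ 2 * (10 ^ 6 * (1 + 1 / κ ^ 2)) = 10 ^ 6 * κ ^ 2 + 10 ^ 6 := by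
        field_simp
      rw [e]
      have : 0 < κ ^ 2 := by positivity
      linarith
  have hK0 : 0 < K1 := lt_of_lt_of_le (by norm_num) hK1
  obtain ⟨ε, hεdef⟩ : ∃ ε : ℝ, ε = 1 / (100 * K1 ^ 3) := ⟨_, rfl⟩
  have hε0 : 0 < ε := by rw [hεdef]; positivity
  have hεK : ε * K1 ^ 3 = 1 / 100 := by
    rw [hεdef]
    field_simp
  have hε1 : ε ≤ 1 / 100 := by
    have h1 : (1 : ℝ) ≤ K1 ^ 3 := one_le_pow₀ (by linarith)
    nlinarith
  obtain ⟨N0, hN0⟩ := exists_nat_ge (10 ^ 10 + K1 ^ 2)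
  refine ⟨K1, hK0, ε, hε0, N0, ?_⟩
  intro N hN A r E η j hr hE hη hη2 hA hj hnear hfar
  have hNR : 10 ^ 10 + K1 ^ 2 ≤ (N : ℝ) := hN0.trans (by exact_mod_cast hN)
  have hNpos : (0 : ℝ) < N := by
    have : 0 < K1 ^ 2 := by positivity
    linarith
  obtain ⟨s, hs⟩ : ∃ s : ℝ, s = Real.sqrt N := ⟨_, rfl⟩
  have hs0 : 0 < s := by rw [hs]; exact Real.sqrt_pos.2 hNpos
  have hss : s ^ 2 = N := by rw [hs]; exact Real.sq_sqrt hNpos.le
  have hs5 : 10 ^ 5 ≤ s := by
    rw [hs]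
    apply Real.le_sqrt_of_sq_le
    have h1 : 0 < K1 ^ 2 := by positivity
    have h2 : ((10 : ℝ) ^ 5) ^ 2 = 10 ^ 10 := by norm_num
    rw [h2]
    linarith
  have hsK : K1 ≤ s := by
    rw [hs]
    apply Real.le_sqrt_of_sq_le
    linarith
  rw [← hs] at hnear
  have hpi := Real.pi_gt_three
  have hpi4 := Real.pi_lt_four
  -- the integrand
  obtain ⟨F, hF⟩ : ∃ F : ℝ → ℝ, F = fun θ : ℝ =>
      (aeval ((r : ℂ) * Complex.exp (θ * Complex.I)) A *
        Complex.exp (-(j * θ * Complex.I))).re * (2 - 2 * Real.cos θ) := ⟨_, rfl⟩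
  have hFc : Continuous F := by rw [hF]; exact cent_F_continuous A r j
  have hcos0 : ∀ θ : ℝ, 0 ≤ 2 - 2 * Real.cos θ := fun θ => by
    have := Real.cos_le_one θ
    linarith
  have ha0 : 0 < 1 / s := by positivity
  have hab : 1 / s ≤ K1 / s := div_le_div_of_nonneg_right (by linarith) hs0.le
  have hb0 : 0 < K1 / s := by positivity
  have hb1 : K1 / s ≤ 1 := by rw [div_le_one hs0]; exact hsK
  -- bounds
  have hnear' : ∀ θ : ℝ, |θ| ≤ K1 / s →
      E * Real.exp (-(θ ^ 2 * N / 24)) - ε * E ≤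
        (aeval ((r : ℂ) * Complex.exp (θ * Complex.I)) A *
          Complex.exp (-(j * θ * Complex.I))).re := by
    intro θ hθ
    have h1 := (Complex.abs_re_le_norm _).trans (hnear θ hθ)
    rw [Complex.sub_re, Complex.ofReal_re] at h1
    have := (abs_le.1 h1).1
    linarith
  have b1 : ∀ θ : ℝ, |θ| ≤ 1 / s → E / 4 * θ ^ 2 ≤ F θ := by
    intro θ hθ
    have h1 := hnear' θ (hθ.trans hab)
    have h2 : θ ^ 2 * N / 24 ≤ 1 / 24 := by
      have h3 : |θ| ^ 2 ≤ (1 / s) ^ 2 := pow_le_pow_left₀ (abs_nonneg _) hθ 2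
      rw [sq_abs] at h3
      have h4 : θ ^ 2 * N ≤ (1 / s) ^ 2 * N := mul_le_mul_of_nonneg_right h3 hNpos.le
      have h5 : (1 / s) ^ 2 * N = 1 := by
        rw [← hss]
        field_simp
      linarith
    have h3 : 1 - 1 / 24 ≤ Real.exp (-(θ ^ 2 * N / 24)) := by
      have := Real.add_one_le_exp (-(θ ^ 2 * N / 24))
      linarith
    have h4 : E * (5 / 8) ≤ (aeval ((r : ℂ) * Complex.exp (θ * Complex.I)) A *
        Complex.exp (-(j * θ * Complex.I))).re := by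
      have h5 := mul_le_mul_of_nonneg_left h3 hE.le
      have h6 := mul_le_mul_of_nonneg_right hε1 hE.le
      linarith
    have h5 : 2 / 5 * θ ^ 2 ≤ 2 - 2 * Real.cos θ := by
      have := ig_cos_lo (θ := θ) (by linarith)
      linarith
    rw [hF]
    have h6 : E * (5 / 8) * (2 / 5 * θ ^ 2) ≤ (aeval ((r : ℂ) * Complex.exp (θ * Complex.I)) A *
        Complex.exp (-(j * θ * Complex.I))).re * (2 - 2 * Real.cos θ) :=
      mul_le_mul h4 h5 (by positivity) (le_trans (by positivity) h4)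
    linarith [(by ring : E * (5 / 8) * (2 / 5 * θ ^ 2) = E / 4 * θ ^ 2)]
  have b2 : ∀ θ : ℝ, |θ| ≤ K1 / s → -(ε * E) * θ ^ 2 ≤ F θ := by
    intro θ hθ
    have h1 := hnear' θ hθ
    have h2 : 0 ≤ E * Real.exp (-(θ ^ 2 * N / 24)) := by positivity
    have h3 : -(ε * E) * (2 - 2 * Real.cos θ) ≤ F θ := by
      rw [hF]
      exact mul_le_mul_of_nonneg_right (by linarith) (hcos0 θ)
    have h4 : ε * E * (2 - 2 * Real.cos θ) ≤ ε * E * θ ^ 2 :=
      mul_le_mul_of_nonneg_left (ig_cos_hi θ) (by positivity)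
    linarith
  obtain ⟨q, hq⟩ : ∃ q : ℝ, q = 100 * E / (κ ^ 2 * N ^ 2) := ⟨_, rfl⟩
  have hq0 : 0 ≤ q := by rw [hq]; positivity
  have b3 : ∀ θ : ℝ, θ ≠ 0 → |θ| ≤ Real.pi →
      (-q) * |θ| ^ (-2 : ℤ) + (-(20 * E * η)) ≤ F θ := by
    intro θ hθ0 hθ
    have h1 := hfar θ hθ
    have h9 : ‖Complex.exp (-(j * θ * Complex.I))‖ = 1 := by
      have : (-(j * θ * Complex.I) : ℂ) = ((-(j * θ) : ℝ) : ℂ) * Complex.I := by
        push_cast
        ring
      rw [this, Complex.norm_exp_ofReal_mul_I]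
    have h2 : |(aeval ((r : ℂ) * Complex.exp (θ * Complex.I)) A *
        Complex.exp (-(j * θ * Complex.I))).re| ≤
          2 * E * (Real.exp (-(κ * N * (1 - Real.cos θ))) + η) := by
      refine (Complex.abs_re_le_norm _).trans ?_
      rw [norm_mul, h9, mul_one]
      exact h1
    have hθ2 : 0 < θ ^ 2 := by positivity
    have h3 : Real.exp (-(κ * N * (1 - Real.cos θ))) ≤ 50 / (κ ^ 2 * N ^ 2 * θ ^ 4) := by
      have h4 : κ * N * (θ ^ 2 / 5) ≤ κ * N * (1 - Real.cos θ) :=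
        mul_le_mul_of_nonneg_left (ig_cos_lo hθ) (by positivity)
      have h5 : Real.exp (-(κ * N * (1 - Real.cos θ))) ≤ Real.exp (-(κ * N * (θ ^ 2 / 5))) :=
        Real.exp_le_exp.2 (by linarith)
      refine h5.trans ((ig_exp (by positivity)).trans (le_of_eq ?_))
      field_simp
      norm_num
    have hθ10 : θ ^ 2 ≤ 10 := by
      have h4 : |θ| ^ 2 ≤ Real.pi ^ 2 := pow_le_pow_left₀ (abs_nonneg _) hθ 2
      rw [sq_abs] at h4
      have := Real.pi_lt_d2
      nlinarith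
    have h6 : |F θ| ≤ 2 * E * (50 / (κ ^ 2 * N ^ 2 * θ ^ 4) + η) * θ ^ 2 := by
      rw [hF]
      simp only
      rw [abs_mul, abs_of_nonneg (hcos0 θ)]
      refine mul_le_mul (h2.trans ?_) (ig_cos_hi θ) (hcos0 θ) (by positivity)
      exact mul_le_mul_of_nonneg_left (by linarith) (by positivity)
    have h7 : 2 * E * (50 / (κ ^ 2 * N ^ 2 * θ ^ 4) + η) * θ ^ 2 ≤
        q * |θ| ^ (-2 : ℤ) + 20 * E * η := by
      have e1 : |θ| ^ (-2 : ℤ) = 1 / θ ^ 2 := by
        rw [zpow_neg, one_div]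
        congr 1
        have : |θ| ^ (2 : ℤ) = |θ| ^ 2 := by norm_cast
        rw [this, sq_abs]
      rw [e1, hq]
      have e2 : 2 * E * (50 / (κ ^ 2 * N ^ 2 * θ ^ 4) + η) * θ ^ 2
          = 100 * E / (κ ^ 2 * N ^ 2) * (1 / θ ^ 2) + 2 * E * η * θ ^ 2 := by
        field_simp
        ring
      rw [e2]
      have h8 : 2 * E * η * θ ^ 2 ≤ 2 * E * η * 10 :=
        mul_le_mul_of_nonneg_left hθ10 (by positivity)
      linarith
    have := (abs_le.1 (h6.trans h7)).1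
    linarith
  -- the two halves
  have half : ∀ G : ℝ → ℝ, Continuous G →
      (∀ θ : ℝ, 0 ≤ θ → G θ = F θ ∨ G θ = F (-θ)) →
      E / 4 * ((1 / s) ^ 3 / 3) - ε * E * ((K1 / s) ^ 3 / 3) - q / (K1 / s) - 4 * (20 * E * η) ≤
        ∫ θ in (0 : ℝ)..Real.pi, G θ := by
    intro G hG hGF
    apply ig_half hG hE.le hε0.le ha0 hab (by linarith) hq0 (by positivity)
    · intro θ h0 h1
      rcases hGF θ h0 with h | h <;> rw [h]
      · exact b1 θ (by rw [abs_of_nonneg h0]; exact h1)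
      · have := b1 (-θ) (by rw [abs_neg, abs_of_nonneg h0]; exact h1)
        rwa [neg_sq] at this
    · intro θ h0 h1
      have h0' : 0 ≤ θ := ha0.le.trans h0
      rcases hGF θ h0' with h | h <;> rw [h]
      · exact b2 θ (by rw [abs_of_nonneg h0']; exact h1)
      · have := b2 (-θ) (by rw [abs_neg, abs_of_nonneg h0']; exact h1)
        rwa [neg_sq] at this
    · intro θ h0 h1
      have h0' : 0 < θ := hb0.trans_le h0
      rcases hGF θ h0'.le with h | h <;> rw [h]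
      · have := b3 θ h0'.ne' (by rw [abs_of_pos h0']; exact h1)
        rwa [abs_of_pos h0'] at this
      · have := b3 (-θ) (neg_ne_zero.2 h0'.ne') (by rw [abs_neg, abs_of_pos h0']; exact h1)
        rwa [abs_neg, abs_of_pos h0'] at this
  have hpos : 0 < E / 4 * ((1 / s) ^ 3 / 3) - ε * E * ((K1 / s) ^ 3 / 3) - q / (K1 / s)
      - 4 * (20 * E * η) := by
    have e1 : E / 4 * ((1 / s) ^ 3 / 3) = E / s ^ 3 * (1 / 12) := by
      field_simp
      norm_num
    have e2 : ε * E * ((K1 / s) ^ 3 / 3) = E / s ^ 3 * (1 / 300) := by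
      have : ε * E * ((K1 / s) ^ 3 / 3) = (ε * K1 ^ 3) * (E / s ^ 3) / 3 := by
        field_simp
      rw [this, hεK]
      ring
    have e3 : q / (K1 / s) = E / s ^ 3 * (100 / (κ ^ 2 * K1)) := by
      rw [hq, ← hss]
      field_simp
    have h3 : 100 / (κ ^ 2 * K1) ≤ 1 / 100 := by
      rw [div_le_div_iff₀ (by positivity) (by norm_num)]
      linarith
    have h4 : 4 * (20 * E * η) ≤ E / s ^ 3 * (1 / 100) := by
      have h5 : η ≤ 1 / s ^ 4 := by
        have : (N : ℝ) ^ 2 = s ^ 4 := by rw [← hss]; ring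
        rw [← this]
        exact hη2
      have h6 : 4 * (20 * E * η) ≤ 4 * (20 * E * (1 / s ^ 4)) := by
        have := mul_le_mul_of_nonneg_left h5 (by positivity : 0 ≤ 4 * (20 * E))
        linarith
      have h7 : 4 * (20 * E * (1 / s ^ 4)) = E / s ^ 3 * (80 / s) := by
        field_simp
        norm_num
      have h8 : 80 / s ≤ 1 / 100 := by
        rw [div_le_div_iff₀ hs0 (by norm_num)]
        linarith
      rw [h7] at h6
      exact h6.trans (mul_le_mul_of_nonneg_left h8 (by positivity))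
    rw [e1, e2, e3]
    have h5 : 0 < E / s ^ 3 := by positivity
    have h6 := mul_le_mul_of_nonneg_left h3 h5.le
    linarith
  have hsplit : ∫ θ in (-Real.pi)..Real.pi, F θ =
      (∫ θ in (0 : ℝ)..Real.pi, F (-θ)) + ∫ θ in (0 : ℝ)..Real.pi, F θ := by
    rw [intervalIntegral.integral_comp_neg, neg_zero,
      intervalIntegral.integral_add_adjacent_intervals (hFc.intervalIntegrable _ _)
      (hFc.intervalIntegrable _ _)]
  have hI1 := half F hFc fun θ _ => Or.inl rfl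
  have hI2 := half (fun θ => F (-θ)) (hFc.comp continuous_neg) fun θ _ => Or.inr rfl
  have hint : 0 < ∫ θ in (-Real.pi)..Real.pi, F θ := by
    rw [hsplit]
    linarith
  have hsd := second_diff A r j hj
  have hposd : 0 < 2 * (A.coeff j * r ^ j) - A.coeff (j - 1) * r ^ (j - 1) -
      A.coeff (j + 1) * r ^ (j + 1) := by
    rw [hF, ← hsd] at hint
    exact (mul_pos_iff_of_pos_right (by linarith)).1 hint
  have hp1 : 0 ≤ A.coeff (j - 1) * r ^ (j - 1) := mul_nonneg (hA _) (pow_nonneg hr.le _)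
  have hp2 : 0 ≤ A.coeff (j + 1) * r ^ (j + 1) := mul_nonneg (hA _) (pow_nonneg hr.le _)
  have hrj : 0 < r ^ j := pow_pos hr _
  constructor
  · have h1 : 0 < A.coeff j * r ^ j := by linarith
    exact (mul_pos_iff_of_pos_right hrj).1 h1
  · have h1 : (A.coeff (j - 1) * r ^ (j - 1)) * (A.coeff (j + 1) * r ^ (j + 1)) ≤
        (A.coeff j * r ^ j) ^ 2 := by
      nlinarith [sq_nonneg (A.coeff (j - 1) * r ^ (j - 1) - A.coeff (j + 1) * r ^ (j + 1))]
    have h2 : (A.coeff (j - 1) * r ^ (j - 1)) * (A.coeff (j + 1) * r ^ (j + 1)) =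
        A.coeff (j - 1) * A.coeff (j + 1) * (r ^ j) ^ 2 := by
      obtain ⟨m, rfl⟩ : ∃ m, j = m + 1 := ⟨j - 1, by omega⟩
      simp only [Nat.add_sub_cancel]
      ring
    rw [h2, mul_pow] at h1
    exact le_of_mul_le_mul_right h1 (by positivity)

end Pool.NL48
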