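import Pool.Agent.NL48.Ode
import Pool.Agent.NL48.Integ
import Pool.Agent.PH48.Cen25

set_option autoImplicit false

/-!
# NL48/CenA: the two hypotheses of `circle`
-/

open Polynomial

namespace Pool.NL48

open Pool.HB45 Pool.PH43

theorem abs_Xf {N : ℕ} (lab : Fin (N + 1) → ℕ) (g : Equiv.Perm (Fin (N + 1))) :
    |Xf lab g| ≤ N := by
  have h1 : des lab g ≤ N := by
    unfold des
    exact (Finset.card_le_univ _).trans (by rw [Fintype.card_fin])
  have h2 : (des lab g : ℝ) ≤ N := by exact_mod_cast h1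
  have h3 : (0 : ℝ) ≤ des lab g := Nat.cast_nonneg _
  unfold Xf
  rw [abs_le]
  constructor <;> linarith

/-- `W(e^(-s)) = e^(-sN/2) MR s` -/
theorem eval_MR {N : ℕ} (Q : Rel (N + 1)) (lab : Fin (N + 1) → ℕ) (s : ℝ) :
    (Wp Q lab).eval (Real.exp (-s)) = Real.exp (-(s * N / 2)) * MR Q lab s := by
  unfold Wp MR
  rw [eval_finsetSum, Finset.mul_sum]
  refine Finset.sum_congr rfl fun g _ => ?_
  rw [eval_pow, eval_X, ← Real.exp_nat_mul, ← Real.exp_add]
  congr 1
  unfold Xf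
  ring

theorem LE_ne {N : ℕ} {Q : Rel (N + 1)} {lab : Fin (N + 1) → ℕ} (hn : Nat' Q lab) :
    (LE Q).Nonempty := by
  obtain ⟨g, hg, -⟩ := exists_sorted hn
  exact ⟨g, hg⟩

theorem MR_pos {N : ℕ} {Q : Rel (N + 1)} {lab : Fin (N + 1) → ℕ} (hn : Nat' Q lab) (s : ℝ) :
    0 < MR Q lab s :=
  Finset.sum_pos (fun _ _ => Real.exp_pos _) (LE_ne hn)

/-- short arc -/
theorem circ_a {N : ℕ} {Q : Rel (N + 1)} {lab : Fin (N + 1) → ℕ} (hn : Nat' Q lab)
    (s θ Y E : ℝ) (j : ℕ) (hj : (N : ℝ) / 2 - j = Gm Q / 2 + s * N / 12) (hθ : |θ| ≤ Y)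
    (hz : |s| + Y ≤ 1 / 10)
    (hE : 10 * (|s| + Y) * ((1 + (|s| + Y) * N) * MR Q lab s +
        ∑ g ∈ LE Q, (nw Q g : ℝ) * Real.exp (s * Xf lab g / 2)) +
      ∑ g ∈ LE Q, |(adj Q g : ℝ) - Gm Q| * Real.exp (s * Xf lab g / 2) ≤ E * MR Q lab s) :
    ‖aeval (((Real.exp (-s) : ℝ) : ℂ) * Complex.exp (θ * Complex.I)) (Wp Q lab) *
        Complex.exp (-(j * θ * Complex.I)) -
      (Real.exp (-(s * N / 2)) * MR Q lab s * Real.exp (-(θ ^ 2 * N / 24)) : ℝ)‖ ≤
      Y * Real.exp (Y ^ 2 * N / 24) * E * (Real.exp (-(s * N / 2)) * MR Q lab s) := by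
  have h1 := segment hn s (-θ) Y E (by rwa [abs_neg]) hz hE
  rw [aeval_MC]
  have hj' : ((N : ℂ) / 2 - j) = Gm Q / 2 + s * N / 12 := by
    have h := congrArg (fun x : ℝ => (x : ℂ)) hj
    push_cast at h
    exact h
  have e1 : MC Q lab ((s : ℂ) - θ * Complex.I) * Complex.exp (-(((s : ℂ) - θ * Complex.I) * N / 2)) *
        Complex.exp (-(j * θ * Complex.I)) -
      (Real.exp (-(s * N / 2)) * MR Q lab s * Real.exp (-(θ ^ 2 * N / 24)) : ℝ) =
      (Real.exp (-(s * N / 2)) : ℝ) * (MC Q lab ((s : ℂ) + (-θ : ℝ) * Complex.I) *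
        Complex.exp (-(((-θ : ℝ) : ℂ) * (Gm Q / 2 + s * N / 12) * Complex.I)) -
        (MR Q lab s * Real.exp (-((-θ) ^ 2 * N / 24)) : ℝ)) := by
    have e2 : ((s : ℂ) - θ * Complex.I) = (s : ℂ) + (-θ : ℝ) * Complex.I := by
      push_cast
      ring
    have e3 : Complex.exp (-(((s : ℂ) - θ * Complex.I) * N / 2)) * Complex.exp (-(j * θ * Complex.I)) =
        (Real.exp (-(s * N / 2)) : ℝ) *
          Complex.exp (-(((-θ : ℝ) : ℂ) * (Gm Q / 2 + s * N / 12) * Complex.I)) := by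
      rw [← hj', Complex.ofReal_exp, ← Complex.exp_add, ← Complex.exp_add]
      congr 1
      push_cast
      ring
    rw [mul_assoc, e3, e2]
    rw [show (-θ) ^ 2 = θ ^ 2 by ring]
    push_cast
    ring
  rw [e1, norm_mul, Complex.norm_real, Real.norm_eq_abs, abs_of_pos (Real.exp_pos _)]
  calc Real.exp (-(s * N / 2)) * _ ≤ Real.exp (-(s * N / 2)) *
        (Y * Real.exp (Y ^ 2 * N / 24) * E * MR Q lab s) :=
        mul_le_mul_of_nonneg_left h1 (Real.exp_pos _).le
    _ = _ := by ring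

/-- the whole circle -/
theorem circ_b {N h : ℕ} (hh : 1 ≤ h) {Q : Rel (N + 1)} {κ lab : Fin (N + 1) → ℕ}
    (hκ : Lev h Q κ) (hn : Nat' Q lab) (hNh : 20000 * h ≤ N) (s θ : ℝ) (hs : |s| ≤ 1 / 1600) :
    ‖aeval (((Real.exp (-s) : ℝ) : ℂ) * Complex.exp (θ * Complex.I)) (Wp Q lab)‖ ≤
      2 * (Real.exp (-(s * N / 2)) * MR Q lab s) *
        (Real.exp (-(1 / 140 * N * (1 - Real.cos θ))) + Real.exp (-(N / 800))) := by
  classical
  have hm : (N + 1) / 5 * (3 + 2) ≤ N + 1 := Nat.div_mul_le_self _ _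
  have hsh := Pool.SC25.share25 hh hκ hn hNh _ rfl hm _ rfl
  have hs1 := (abs_le.1 hs).1
  have hs2 := (abs_le.1 hs).2
  have hN0 : (0 : ℝ) ≤ N := Nat.cast_nonneg _
  have hr1 : 99 / 100 ≤ Real.exp (-s) := by
    have := Real.add_one_le_exp (-s)
    linarith
  have hr2 : Real.exp (-s) ≤ 101 / 100 := by
    have h1 : Real.exp (-s) ≤ Real.exp (1 / 1600) := by
      rw [Real.exp_le_exp]
      linarith
    have h2 : Real.exp (1 / 1600 : ℝ) ≤ 101 / 100 := by
      have h3 := Real.add_one_le_exp (-(1 / 1600 : ℝ))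
      rw [Real.exp_neg] at h3
      have h4 := Real.exp_pos (1 / 1600 : ℝ)
      have h5 : Real.exp (1 / 1600 : ℝ) * (Real.exp (1 / 1600 : ℝ))⁻¹ = 1 := mul_inv_cancel₀ h4.ne'
      nlinarith
    exact h1.trans h2
  have h0 := decay2 hm hn (N / 20 + 1) (Real.exp (-s)) θ hr1 hr2
  rw [eval_MR] at h0
  set E := Real.exp (-(s * N / 2)) * MR Q lab s with hE
  have hE0 : 0 < E := mul_pos (Real.exp_pos _) (MR_pos hn s)
  have hc : 0 ≤ 1 - Real.cos θ := by linarith [Real.cos_le_one θ]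
  have h1 : Real.exp (-(1 / 7 * ((N / 20 + 1 : ℕ) : ℝ) * (1 - Real.cos θ))) ≤
      Real.exp (-(1 / 140 * N * (1 - Real.cos θ))) := by
    rw [Real.exp_le_exp]
    have h2 : N ≤ 20 * (N / 20 + 1) := by omega
    have h3 : (N : ℝ) ≤ 20 * ((N / 20 + 1 : ℕ) : ℝ) := by exact_mod_cast h2
    have h4 : 1 / 140 * (N : ℝ) ≤ 1 / 7 * ((N / 20 + 1 : ℕ) : ℝ) := by linarith
    have h5 := mul_le_mul_of_nonneg_right h4 hc
    linarith
  -- bad words
  have h2 : ∀ g : Equiv.Perm (Fin (N + 1)), Real.exp (-s) ^ des lab g =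
      Real.exp (-(s * N / 2)) * Real.exp (s * Xf lab g / 2) := by
    intro g
    rw [← Real.exp_nat_mul, ← Real.exp_add]
    congr 1
    unfold Xf
    ring
  have h3 : ∑ π ∈ (LE Q).filter (fun π => na hm Q π < N / 20 + 1), Real.exp (-s) ^ des lab π ≤
      Real.exp (-(N / 800)) * E := by
    have h4 : ∀ g : Equiv.Perm (Fin (N + 1)), s * Xf lab g / 2 ≤ N / 3200 := by
      intro g
      have h5 := abs_Xf lab g
      have h6 : s * Xf lab g ≤ |s| * |Xf lab g| := by
        rw [← abs_mul]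
        exact le_abs_self _
      have h7 : |s| * |Xf lab g| ≤ 1 / 1600 * N :=
        mul_le_mul hs h5 (abs_nonneg _) (by norm_num)
      linarith
    have h4' : ∀ g : Equiv.Perm (Fin (N + 1)), -(N / 3200 : ℝ) ≤ s * Xf lab g / 2 := by
      intro g
      have h5 := abs_Xf lab g
      have h6 : -(s * Xf lab g) ≤ |s| * |Xf lab g| := by
        rw [← abs_mul]
        exact neg_le_abs _
      have h7 : |s| * |Xf lab g| ≤ 1 / 1600 * N :=
        mul_le_mul hs h5 (abs_nonneg _) (by norm_num)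
      linarith
    have h5 : ((LE Q).card : ℝ) * Real.exp (-(N / 3200)) ≤ MR Q lab s := by
      unfold MR
      calc ((LE Q).card : ℝ) * Real.exp (-(N / 3200)) = ∑ _g ∈ LE Q, Real.exp (-((N : ℝ) / 3200)) := by
            rw [Finset.sum_const, nsmul_eq_mul]
        _ ≤ _ := Finset.sum_le_sum fun g _ => by
            rw [Real.exp_le_exp]
            exact h4' g
    calc ∑ π ∈ (LE Q).filter (fun π => na hm Q π < N / 20 + 1), Real.exp (-s) ^ des lab π
        ≤ ∑ π ∈ (LE Q).filter (fun π => na hm Q π < N / 20 + 1),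
            Real.exp (-(s * N / 2)) * Real.exp (N / 3200) := by
          refine Finset.sum_le_sum fun g _ => ?_
          rw [h2]
          refine mul_le_mul_of_nonneg_left ?_ (Real.exp_pos _).le
          rw [Real.exp_le_exp]
          exact h4 g
      _ = (((LE Q).filter (fun π => na hm Q π < N / 20 + 1)).card : ℝ) *
            (Real.exp (-(s * N / 2)) * Real.exp (N / 3200)) := by
          rw [Finset.sum_const, nsmul_eq_mul]
      _ ≤ Real.exp (-((N : ℝ) / 400)) * (LE Q).card *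
            (Real.exp (-(s * N / 2)) * Real.exp (N / 3200)) :=
          mul_le_mul_of_nonneg_right hsh (by positivity)
      _ = (Real.exp (-((N : ℝ) / 400)) * Real.exp (N / 3200) * Real.exp (N / 3200)) *
            (Real.exp (-(s * N / 2)) * (((LE Q).card : ℝ) * Real.exp (-(N / 3200)))) := by
          have h6 : Real.exp ((N : ℝ) / 3200) * Real.exp (-(N / 3200)) = 1 := by
            rw [← Real.exp_add]
            simp
          calc Real.exp (-((N : ℝ) / 400)) * (LE Q).card *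
                (Real.exp (-(s * N / 2)) * Real.exp (N / 3200))
              = Real.exp (-((N : ℝ) / 400)) * (LE Q).card *
                (Real.exp (-(s * N / 2)) * Real.exp (N / 3200)) *
                (Real.exp ((N : ℝ) / 3200) * Real.exp (-(N / 3200))) := by rw [h6, mul_one]
            _ = _ := by ring
      _ ≤ Real.exp (-(N / 800)) * (Real.exp (-(s * N / 2)) * MR Q lab s) := by
          refine mul_le_mul ?_ (mul_le_mul_of_nonneg_left h5 (Real.exp_pos _).le)
            (by positivity) (Real.exp_pos _).le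
          rw [← Real.exp_add, ← Real.exp_add, Real.exp_le_exp]
          linarith
  calc _ ≤ _ := h0
    _ ≤ Real.exp (-(1 / 140 * N * (1 - Real.cos θ))) * E + Real.exp (-(N / 800)) * E :=
        add_le_add (mul_le_mul_of_nonneg_right h1 hE0.le) h3
    _ ≤ 2 * E * (Real.exp (-(1 / 140 * N * (1 - Real.cos θ))) + Real.exp (-(N / 800))) := by
        have h6 : 0 ≤ E * (Real.exp (-(1 / 140 * N * (1 - Real.cos θ))) + Real.exp (-(N / 800))) :=
          mul_nonneg hE0.le (add_nonneg (Real.exp_pos _).le (Real.exp_pos _).le)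
        linarith

end Pool.NL48
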