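import Pool.Agent.NL48.CenA
import Pool.Agent.HB45.Uni

set_option autoImplicit false

/-!
# NL48/CenB: the centre from the first two moments of the comparable neighbours
-/

open Polynomial

namespace Pool.NL48

open Pool.HB45 Pool.PH43

/-- `log N ≤ η √N` for large `N` -/
theorem log_le_sqrt (η : ℝ) (hη : 0 < η) : ∃ N0 : ℕ, ∀ N ≥ N0, Real.log N ≤ η * Real.sqrt N := by
  have h1 := isLittleO_log_rpow_atTop (show (0 : ℝ) < 1 / 2 by norm_num)
  have h2 := h1.def hη
  have h3 := tendsto_natCast_atTop_atTop.eventually h2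
  obtain ⟨N0, hN0⟩ := Filter.eventually_atTop.1 h3
  refine ⟨N0, fun N hN => ?_⟩
  have h4 := hN0 N hN
  rw [Real.norm_eq_abs, Real.norm_eq_abs, ← Real.sqrt_eq_rpow,
    abs_of_nonneg (Real.sqrt_nonneg _)] at h4
  exact (le_abs_self _).trans h4

/-- THE CENTRE, given the moments -/
theorem cen_core (A : ℝ) (hA : 0 < A) : ∃ ε₁ : ℝ, 0 < ε₁ ∧ ∃ c1 : ℝ, 0 < c1 ∧ ∃ N0 : ℕ, ∀ N ≥ N0,
    ∀ h : ℕ, 1 ≤ h → (h : ℝ) * Real.log N ≤ c1 * N → ∀ (Q : Rel (N + 1)) (κ lab : Fin (N + 1) → ℕ),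
    Lev h Q κ → Nat' Q lab →
    (∀ s : ℝ, |s| ≤ 6 * A * Real.sqrt (Real.log N / N) →
      ∑ g ∈ LE Q, |(adj Q g : ℝ) - Gm Q| * Real.exp (s * Xf lab g / 2) ≤
        ε₁ * Real.sqrt N * MR Q lab s ∧
      ∑ g ∈ LE Q, (nw Q g : ℝ) * Real.exp (s * Xf lab g / 2) ≤
        20 * (h + Real.sqrt N) * MR Q lab s) →
    ∀ j : ℕ, 1 ≤ j → |2 * (j : ℝ) - (N - Gm Q)| ≤ A * Real.sqrt (N * Real.log N) →
      0 < w Q lab j ∧ w Q lab (j - 1) * w Q lab (j + 1) ≤ w Q lab j ^ 2 := by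
  obtain ⟨K1, hK1, ε, hε, N1, hcirc⟩ := circle (1 / 140) (by norm_num)
  obtain ⟨M, hM⟩ : ∃ M, M = K1 * Real.exp (K1 ^ 2 / 24) := ⟨_, rfl⟩
  have hM0 : 0 < M := by
    rw [hM]
    positivity
  obtain ⟨δ, hδ⟩ : ∃ δ, δ = ε / M := ⟨_, rfl⟩
  have hδ0 : 0 < δ := by
    rw [hδ]
    positivity
  obtain ⟨D, hD⟩ : ∃ D, D = 6 * A + K1 := ⟨_, rfl⟩
  have hD0 : 0 < D := by
    rw [hD]
    positivity
  obtain ⟨η, hη⟩ : ∃ η, η = min (δ / (4 * (210 * D + 10 * D ^ 2))) (1 / (1600 * D)) := ⟨_, rfl⟩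
  have hη0 : 0 < η := by
    rw [hη]
    positivity
  obtain ⟨N2, hN2⟩ := log_le_sqrt η hη0
  refine ⟨δ / 4, by positivity, min (δ / (800 * D)) (1 / 20000), by positivity,
    max N1 (max N2 (6 * 800 ^ 3)), fun N hN h hh hhN Q κ lab hκ hn hI j hj hjc => ?_⟩
  have g1 : N1 ≤ N := (le_max_left _ _).trans hN
  have g2 : N2 ≤ N := (le_max_left _ _).trans ((le_max_right _ _).trans hN)
  have g3 : 6 * 800 ^ 3 ≤ N := (le_max_right _ _).trans ((le_max_right _ _).trans hN)
  have hNb : (6 * 800 ^ 3 : ℝ) ≤ N := by exact_mod_cast g3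
  have hN0 : (0 : ℝ) < N := lt_of_lt_of_le (by norm_num) hNb
  have hN1 : (1 : ℝ) ≤ N := le_trans (by norm_num) hNb
  have hh' : (1 : ℝ) ≤ h := by exact_mod_cast hh
  -- `L = log N`
  obtain ⟨L, hL⟩ : ∃ L, L = Real.log (N : ℝ) := ⟨_, rfl⟩
  have hL1 : 1 ≤ L := by
    rw [hL, Real.le_log_iff_exp_le hN0]
    have h3 := Real.exp_one_lt_d9
    have h4 : (3 : ℝ) ≤ N := le_trans (by norm_num) hNb
    linarith
  obtain ⟨q, hq⟩ : ∃ q, q = Real.sqrt (N : ℝ) := ⟨_, rfl⟩
  have hq0 : 0 < q := by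
    rw [hq]
    exact Real.sqrt_pos.2 hN0
  have hqq : q * q = N := by
    rw [hq]
    exact Real.mul_self_sqrt hN0.le
  have hq1 : 1 ≤ q := by
    by_contra hcon
    push Not at hcon
    nlinarith
  have hLq : L ≤ η * q := by
    rw [hL, hq]
    exact hN2 N g2
  obtain ⟨l, hl⟩ : ∃ l, l = Real.sqrt L := ⟨_, rfl⟩
  have hll : l * l = L := by
    rw [hl]
    exact Real.mul_self_sqrt (by linarith)
  have hl0 : 0 ≤ l := by
    rw [hl]
    exact Real.sqrt_nonneg _
  have hl1 : 1 ≤ l := by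
    by_contra hcon
    push Not at hcon
    nlinarith
  have hlL : l ≤ L := by nlinarith
  -- the tilt
  have hr1 : Real.sqrt (Real.log N / N) = l / q := by
    rw [Real.sqrt_div' _ hN0.le, ← hL, ← hl, ← hq]
  have hr2 : Real.sqrt (N * Real.log N) = q * l := by
    rw [Real.sqrt_mul hN0.le, ← hL, ← hl, ← hq]
  obtain ⟨s, hs⟩ : ∃ s, s = 6 * ((N : ℝ) - Gm Q - 2 * j) / N := ⟨_, rfl⟩
  have hsN : s * N = 6 * ((N : ℝ) - Gm Q - 2 * j) := by
    rw [hs]
    field_simp
  have hsabs : |s| ≤ 6 * A * (l / q) := by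
    rw [hs, abs_div, abs_of_pos hN0, div_le_iff₀ hN0, abs_mul, abs_of_pos (by norm_num : (0 : ℝ) < 6)]
    rw [hr2] at hjc
    have h3 : |(N : ℝ) - Gm Q - 2 * j| ≤ A * (q * l) := by
      rw [show (N : ℝ) - Gm Q - 2 * j = -(2 * (j : ℝ) - (N - Gm Q)) by ring, abs_neg]
      exact hjc
    have h4 : 6 * A * (l / q) * N = 6 * (A * (q * l)) := by
      rw [← hqq]
      field_simp
    rw [h4]
    linarith
  have hphase : (N : ℝ) / 2 - j = Gm Q / 2 + s * N / 12 := by
    rw [hsN]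
    ring
  obtain ⟨Y, hY⟩ : ∃ Y, Y = K1 / q := ⟨_, rfl⟩
  have hY0 : 0 < Y := by
    rw [hY]
    positivity
  obtain ⟨u, hu⟩ : ∃ u, u = |s| + Y := ⟨_, rfl⟩
  have hu0 : 0 ≤ u := by
    rw [hu]
    positivity
  have huq : u * q ≤ D * l := by
    rw [hu, hY, add_mul, div_mul_cancel₀ _ hq0.ne', hD]
    have h3 : |s| * q ≤ 6 * A * l := by
      have h4 := mul_le_mul_of_nonneg_right hsabs hq0.le
      have h5 : 6 * A * (l / q) * q = 6 * A * l := by field_simp
      linarith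
    nlinarith
  have huqL : u * q ≤ D * L := huq.trans (mul_le_mul_of_nonneg_left hlL hD0.le)
  have hDη : D * η ≤ 1 / 1600 := by
    have h3 : η ≤ 1 / (1600 * D) := by
      rw [hη]
      exact min_le_right _ _
    calc D * η ≤ D * (1 / (1600 * D)) := mul_le_mul_of_nonneg_left h3 hD0.le
      _ = 1 / 1600 := by field_simp
  have hu1 : u ≤ 1 / 1600 := by
    have h3 : u * q ≤ 1 / 1600 * q := by
      calc u * q ≤ D * L := huqL
        _ ≤ D * (η * q) := mul_le_mul_of_nonneg_left hLq hD0.le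
        _ = D * η * q := by ring
        _ ≤ 1 / 1600 * q := mul_le_mul_of_nonneg_right hDη hq0.le
    exact le_of_mul_le_mul_right h3 hq0
  have hs16 : |s| ≤ 1 / 1600 := by
    rw [hu] at hu1
    linarith
  obtain ⟨hI1, hI2⟩ := hI s (by rw [hr1]; exact hsabs)
  rw [← hq] at hI1 hI2
  have hMR := MR_pos hn s
  have hhN' : (h : ℝ) * L ≤ min (δ / (800 * D)) (1 / 20000) * N := by
    rw [hL]
    exact hhN
  -- the height
  have hNh : 20000 * h ≤ N := by
    have h3 : (h : ℝ) * L ≤ 1 / 20000 * N :=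
      hhN'.trans (mul_le_mul_of_nonneg_right (min_le_right _ _) hN0.le)
    have h4 : (h : ℝ) ≤ h * L := le_mul_of_one_le_right (by linarith) hL1
    have h5 : 20000 * (h : ℝ) ≤ N := by linarith
    exact_mod_cast h5
  have hhq : u * h ≤ δ / 800 * q := by
    have h3 : (h : ℝ) * L ≤ δ / (800 * D) * N :=
      hhN'.trans (mul_le_mul_of_nonneg_right (min_le_left _ _) hN0.le)
    have h4 : u * q * h ≤ D * (h * L) := by
      calc u * q * h ≤ D * L * h := mul_le_mul_of_nonneg_right huqL (by linarith)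
        _ = D * (h * L) := by ring
    have h5 : D * (h * L) ≤ D * (δ / (800 * D) * N) := mul_le_mul_of_nonneg_left h3 hD0.le
    have h6 : D * (δ / (800 * D) * N) = δ / 800 * q * q := by
      rw [mul_assoc (δ / 800) q q, hqq]
      field_simp
    have h7 : u * h * q ≤ δ / 800 * q * q := by
      calc u * h * q = u * q * h := by ring
        _ ≤ _ := (h4.trans h5).trans_eq h6
    exact le_of_mul_le_mul_right h7 hq0
  have hmain : 10 * u * ((1 + u * N) * MR Q lab s +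
        ∑ g ∈ LE Q, (nw Q g : ℝ) * Real.exp (s * Xf lab g / 2)) +
      ∑ g ∈ LE Q, |(adj Q g : ℝ) - Gm Q| * Real.exp (s * Xf lab g / 2) ≤ δ * q * MR Q lab s := by
    have h3 : 10 * u * ((1 + u * N) * MR Q lab s +
        ∑ g ∈ LE Q, (nw Q g : ℝ) * Real.exp (s * Xf lab g / 2)) ≤
        10 * u * ((1 + u * N) * MR Q lab s + 20 * (h + q) * MR Q lab s) :=
      mul_le_mul_of_nonneg_left (by linarith) (by positivity)
    have h4 : 10 * u * (1 + u * N) + 200 * (u * q) ≤ δ / 4 * q := by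
      have h5 : u ≤ u * q := le_mul_of_one_le_right hu0 hq1
      have h6 : u * (u * N) = (u * q) * (u * q) := by
        rw [← hqq]
        ring
      have h7 : (u * q) * (u * q) ≤ D ^ 2 * L := by
        calc (u * q) * (u * q) ≤ (D * l) * (D * l) :=
              mul_le_mul huq huq (by positivity) (by positivity)
          _ = D ^ 2 * (l * l) := by ring
          _ = D ^ 2 * L := by rw [hll]
      have h8 : η ≤ δ / (4 * (210 * D + 10 * D ^ 2)) := by
        rw [hη]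
        exact min_le_left _ _
      have h9 : (210 * D + 10 * D ^ 2) * η ≤ δ / 4 := by
        calc (210 * D + 10 * D ^ 2) * η ≤
              (210 * D + 10 * D ^ 2) * (δ / (4 * (210 * D + 10 * D ^ 2))) :=
              mul_le_mul_of_nonneg_left h8 (by positivity)
          _ = δ / 4 := by field_simp
      calc 10 * u * (1 + u * N) + 200 * (u * q) = 10 * u + 10 * (u * (u * N)) + 200 * (u * q) := by ring
        _ ≤ 210 * (D * L) + 10 * (D ^ 2 * L) := by
            rw [h6]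
            linarith
        _ = (210 * D + 10 * D ^ 2) * L := by ring
        _ ≤ (210 * D + 10 * D ^ 2) * (η * q) := mul_le_mul_of_nonneg_left hLq (by positivity)
        _ = (210 * D + 10 * D ^ 2) * η * q := by ring
        _ ≤ δ / 4 * q := mul_le_mul_of_nonneg_right h9 hq0.le
    have h5 : 10 * u * ((1 + u * N) * MR Q lab s + 20 * (h + q) * MR Q lab s) =
        (10 * u * (1 + u * N) + 200 * (u * q) + 200 * (u * h)) * MR Q lab s := by ring
    have h6 : (10 * u * (1 + u * N) + 200 * (u * q) + 200 * (u * h)) * MR Q lab s ≤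
        (δ / 4 * q + 200 * (δ / 800 * q)) * MR Q lab s :=
      mul_le_mul_of_nonneg_right (by linarith) hMR.le
    have h7 : 0 ≤ δ * q * MR Q lab s := by positivity
    nlinarith
  rw [hu] at hmain
  have hz : |s| + Y ≤ 1 / 10 := by
    rw [← hu]
    linarith
  have hE0 : 0 < Real.exp (-(s * N / 2)) * MR Q lab s := mul_pos (Real.exp_pos _) hMR
  have hη2 : Real.exp (-((N : ℝ) / 800)) ≤ 1 / (N : ℝ) ^ 2 := by
    have h3 := Real.pow_div_factorial_le_exp ((N : ℝ) / 800) (by positivity) 3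
    have h4 : (N : ℝ) ^ 2 ≤ Real.exp ((N : ℝ) / 800) := by
      refine le_trans ?_ h3
      have h5 : ((3 : ℕ).factorial : ℝ) = 6 := by norm_num [Nat.factorial]
      rw [h5, le_div_iff₀ (by norm_num), div_pow]
      rw [le_div_iff₀ (by norm_num)]
      have h6 : (0 : ℝ) ≤ (N : ℝ) ^ 2 := sq_nonneg _
      nlinarith
    rw [Real.exp_neg, ← one_div]
    exact one_div_le_one_div_of_le (by positivity) h4
  have hfin := hcirc N g1 (Wp Q lab) (Real.exp (-s)) (Real.exp (-(s * N / 2)) * MR Q lab s)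
    (Real.exp (-((N : ℝ) / 800))) j (Real.exp_pos _) hE0 (Real.exp_pos _).le hη2
    (fun k => by rw [coeff_Wp]; exact Nat.cast_nonneg _) hj ?_ ?_
  · rw [coeff_Wp, coeff_Wp, coeff_Wp] at hfin
    exact_mod_cast hfin
  · intro θ hθ
    rw [← hq, ← hY] at hθ
    refine (circ_a hn s θ Y (δ * q) j hphase hθ hz hmain).trans ?_
    refine mul_le_mul_of_nonneg_right ?_ hE0.le
    have h3 : Y ^ 2 * N / 24 = K1 ^ 2 / 24 := by
      rw [hY, ← hqq]
      field_simp
    rw [h3, hY]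
    have h4 : K1 / q * Real.exp (K1 ^ 2 / 24) * (δ * q) = δ * M := by
      rw [hM]
      field_simp
    rw [h4, hδ]
    exact (div_mul_cancel₀ _ hM0.ne').le
  · intro θ _
    exact circ_b hh hκ hn hNh s θ hs16

end Pool.NL48
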