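import Pool.Agent.SC25.Defs
import Pool.Agent.HB45.Avg

set_option autoImplicit false

/-!
# NL48/Defs: definitions for the centre of the sublinear chains theorem (MP_dcdbc5_co)

`X = N - 2 des = adj + Σ_p ep_p`, weights `e^(s X / 2)`.
-/

open Polynomial

namespace Pool.NL48

open Pool.HB45 Pool.PH43

/-- `X = N - 2 des` -/
noncomputable def Xf {N : ℕ} (lab : Fin (N + 1) → ℕ) (g : Equiv.Perm (Fin (N + 1))) : ℝ :=
  (N : ℝ) - 2 * des lab g

/-- mean of `adj` -/
noncomputable def Gm {N : ℕ} (Q : Rel (N + 1)) : ℝ :=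
  (∑ g ∈ LE Q, (adj Q g : ℝ)) / (LE Q).card

/-- real moment generating function of `X / 2` (not normalized) -/
noncomputable def MR {N : ℕ} (Q : Rel (N + 1)) (lab : Fin (N + 1) → ℕ) (s : ℝ) : ℝ :=
  ∑ g ∈ LE Q, Real.exp (s * Xf lab g / 2)

/-- complex moment generating function of `X / 2` (not normalized) -/
noncomputable def MC {N : ℕ} (Q : Rel (N + 1)) (lab : Fin (N + 1) → ℕ) (z : ℂ) : ℂ :=
  ∑ g ∈ LE Q, Complex.exp (z * Xf lab g / 2)

/-- `+1` at an incomparable ascent, `-1` at an incomparable descent, `0` at comparable neighbours -/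
noncomputable def ep {N : ℕ} (Q : Rel (N + 1)) (lab : Fin (N + 1) → ℕ) (p : Fin N)
    (g : Equiv.Perm (Fin (N + 1))) : ℝ := by
  classical
  exact if Q (g p.castSucc) (g p.succ) then 0
    else if lab (g p.succ) < lab (g p.castSucc) then -1 else 1

/-- `X g - X (sw g p)` -/
noncomputable def Dl {N : ℕ} (lab : Fin (N + 1) → ℕ) (p : Fin N)
    (g : Equiv.Perm (Fin (N + 1))) : ℝ := Xf lab g - Xf lab (sw g p)

/-- `p` is an interior swap position -/
def Int' {N : ℕ} (p : Fin N) : Prop := 1 ≤ p.val ∧ p.val + 2 ≤ N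

/-- the window `p - 1, p, p + 1, p + 2` -/
theorem int_le {N : ℕ} {p : Fin N} (hp : Int' p) : (p.val - 1) + 4 ≤ N + 1 := by
  have := hp.1
  have := hp.2
  omega

/-- the letters at the positions `p - 1, …, p + 2` are an antichain -/
def An {N : ℕ} (Q : Rel (N + 1)) (p : Fin N) (g : Equiv.Perm (Fin (N + 1))) : Prop :=
  ∃ hp : Int' p, Anti (int_le hp) Q g

/-- the interior windows which are not antichains -/
noncomputable def nw {N : ℕ} (Q : Rel (N + 1)) (g : Equiv.Perm (Fin (N + 1))) : ℕ := by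
  classical
  exact (Finset.univ.filter fun p : Fin N => Int' p ∧ ¬ An Q p g).card

end Pool.NL48
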