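import Pool.Agent.NL48.LocA

set_option autoImplicit false

/-!
# NL48/Loc: the local lemma (STUB)
-/

namespace Pool.NL48

open Pool.HB45 Pool.PH43

/-- LOCAL LEMMA. PROOF. `Xf_eq`, so the difference is `Σ_p Σ_g ep_p e^(zX/2)`; `sum_ep_exp` for every `p` (error
`N ‖z‖²/2 MR`), `one_window` for the interior `p` (at least `N - 3` of them, also if `N` is small), the trivial bound
`‖Σ ep D e^(zX/2)‖ ≤ 2 MR` for the at most 3 others; `‖MC z‖ ≤ MR z.re`; `Σ_p Σ_{¬ An} = Σ_g nw` for interior `p`. -/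
theorem local_lemma {N : ℕ} {Q : Rel (N + 1)} {lab : Fin (N + 1) → ℕ} (hn : Nat' Q lab)
    (z : ℂ) (hz : ‖z‖ ≤ 1 / 10) :
    ‖∑ g ∈ LE Q, ((Xf lab g - adj Q g : ℝ) : ℂ) * Complex.exp (z * Xf lab g / 2) -
      z * N / 6 * MC Q lab z‖ ≤
      10 * ‖z‖ * ((1 + ‖z‖ * N) * MR Q lab z.re +
        ∑ g ∈ LE Q, (nw Q g : ℝ) * Real.exp (z.re * Xf lab g / 2)) :=
  local_lemmaA hn z hz

/-- the real case -/
theorem local_real {N : ℕ} {Q : Rel (N + 1)} {lab : Fin (N + 1) → ℕ} (hn : Nat' Q lab)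
    (s : ℝ) (hs : |s| ≤ 1 / 10) :
    |∑ g ∈ LE Q, (Xf lab g - adj Q g) * Real.exp (s * Xf lab g / 2) - s * N / 6 * MR Q lab s| ≤
      10 * |s| * ((1 + |s| * N) * MR Q lab s +
        ∑ g ∈ LE Q, (nw Q g : ℝ) * Real.exp (s * Xf lab g / 2)) :=
  local_realA hn s hs

end Pool.NL48
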