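import Pool.Agent.NL48.Win

set_option autoImplicit false

/-!
# NL48/LocA: the local lemma (helper80)
-/

namespace Pool.NL48

open Pool.HB45 Pool.PH43

theorem norm_expXf {N : ℕ} (lab : Fin (N + 1) → ℕ) (z : ℂ) (g : Equiv.Perm (Fin (N + 1))) :
    ‖Complex.exp (z * Xf lab g / 2)‖ = Real.exp (z.re * Xf lab g / 2) := by
  rw [Complex.norm_exp]
  congr 1
  have : z * (Xf lab g : ℂ) / 2 = z * ((Xf lab g / 2 : ℝ) : ℂ) := by push_cast; ring
  rw [this, Complex.re_mul_ofReal]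
  ring

theorem norm_MC_le {N : ℕ} (Q : Rel (N + 1)) (lab : Fin (N + 1) → ℕ) (z : ℂ) :
    ‖MC Q lab z‖ ≤ MR Q lab z.re := by
  unfold MC MR
  refine (norm_sum_le _ _).trans (le_of_eq ?_)
  exact Finset.sum_congr rfl fun g _ => norm_expXf lab z g

theorem MR_nonneg {N : ℕ} (Q : Rel (N + 1)) (lab : Fin (N + 1) → ℕ) (s : ℝ) : 0 ≤ MR Q lab s :=
  Finset.sum_nonneg fun _ _ => (Real.exp_pos _).le

open Classical in
/-- the error of the position `p` -/
noncomputable def Rp {N : ℕ} (Q : Rel (N + 1)) (lab : Fin (N + 1) → ℕ) (s : ℝ) (p : Fin N) : ℝ :=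
  if Int' p then ∑ g ∈ (LE Q).filter (fun g => ¬ An Q p g), Real.exp (s * Xf lab g / 2)
  else MR Q lab s

open Classical in
theorem one_pos {N : ℕ} {Q : Rel (N + 1)} {lab : Fin (N + 1) → ℕ} (hn : Nat' Q lab) (p : Fin N)
    (z : ℂ) (hz : ‖z‖ ≤ 1 / 10) :
    ‖∑ g ∈ LE Q, (ep Q lab p g : ℂ) * Complex.exp (z * Xf lab g / 2) - z / 6 * MC Q lab z‖ ≤
      8 * ‖z‖ ^ 2 * MR Q lab z.re + ‖z‖ * Rp Q lab z.re p := by
  have h1 := sum_ep_exp hn p z (hz.trans (by norm_num))
  set S := ∑ g ∈ LE Q, (ep Q lab p g : ℂ) * Complex.exp (z * Xf lab g / 2) with hS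
  set T := ∑ g ∈ LE Q, ((ep Q lab p g * Dl lab p g : ℝ) : ℂ) * Complex.exp (z * Xf lab g / 2)
    with hT
  have hz0 := norm_nonneg z
  have hM := MR_nonneg Q lab z.re
  have hTb : ‖T - 2 / 3 * MC Q lab z‖ ≤ 30 * ‖z‖ * MR Q lab z.re + 3 * Rp Q lab z.re p := by
    by_cases hp : Int' p
    · have h2 := one_window hn hp z hz
      unfold Rp
      rw [if_pos hp]
      exact h2
    · unfold Rp
      rw [if_neg hp]
      have h3 : ‖T‖ ≤ 2 * MR Q lab z.re := by
        rw [hT]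
        refine (norm_sum_le _ _).trans ?_
        unfold MR
        rw [Finset.mul_sum]
        refine Finset.sum_le_sum fun g _ => ?_
        rw [norm_mul, norm_expXf, Complex.norm_real, Real.norm_eq_abs, abs_mul]
        have h4 := ep_abs Q lab p g
        have h5 := Dl_abs hn.inj p g
        have h6 : |ep Q lab p g| * |Dl lab p g| ≤ 1 * 2 := by gcongr
        have h7 := (Real.exp_pos (z.re * Xf lab g / 2)).le
        nlinarith
      have h4 : ‖T - 2 / 3 * MC Q lab z‖ ≤ ‖T‖ + ‖(2 / 3 : ℂ) * MC Q lab z‖ := norm_sub_le _ _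
      have h5 : ‖(2 / 3 : ℂ) * MC Q lab z‖ ≤ 2 / 3 * MR Q lab z.re := by
        rw [norm_mul]
        have : ‖(2 / 3 : ℂ)‖ = 2 / 3 := by norm_num
        rw [this]
        exact mul_le_mul_of_nonneg_left (norm_MC_le Q lab z) (by norm_num)
      have h6 : 0 ≤ 30 * ‖z‖ * MR Q lab z.re := by positivity
      linarith
  have h8 : S - z / 6 * MC Q lab z = (S - z / 4 * T) + z / 4 * (T - 2 / 3 * MC Q lab z) := by ring
  have h9 : ‖z / 4 * (T - 2 / 3 * MC Q lab z)‖ ≤
      ‖z‖ / 4 * (30 * ‖z‖ * MR Q lab z.re + 3 * Rp Q lab z.re p) := by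
    rw [norm_mul, norm_div]
    have : ‖(4 : ℂ)‖ = 4 := by norm_num
    rw [this]
    gcongr
  have hRp : 0 ≤ Rp Q lab z.re p := by
    unfold Rp
    split_ifs
    · exact Finset.sum_nonneg fun _ _ => (Real.exp_pos _).le
    · exact hM
  rw [h8]
  refine (norm_add_le _ _).trans ((add_le_add h1 h9).trans ?_)
  have h10 : 0 ≤ ‖z‖ * Rp Q lab z.re p := by positivity
  nlinarith

theorem card_notInt {N : ℕ} [DecidablePred fun p : Fin N => ¬ Int' p] :
    (Finset.univ.filter fun p : Fin N => ¬ Int' p).card ≤ 2 := by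
  calc (Finset.univ.filter fun p : Fin N => ¬ Int' p).card
      = ((Finset.univ.filter fun p : Fin N => ¬ Int' p).image Fin.val).card :=
        (Finset.card_image_of_injective _ Fin.val_injective).symm
    _ ≤ ({0, N - 1} : Finset ℕ).card := by
        apply Finset.card_le_card
        intro x hx
        rw [Finset.mem_image] at hx
        obtain ⟨p, hp, rfl⟩ := hx
        rw [Finset.mem_filter] at hp
        have h1 := hp.2
        unfold Int' at h1
        have h2 := p.isLt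
        rw [Finset.mem_insert, Finset.mem_singleton]
        omega
    _ ≤ 2 := Finset.card_le_two

open Classical in
theorem sum_Rp {N : ℕ} (Q : Rel (N + 1)) (lab : Fin (N + 1) → ℕ) (s : ℝ) :
    ∑ p : Fin N, Rp Q lab s p ≤
      2 * MR Q lab s + ∑ g ∈ LE Q, (nw Q g : ℝ) * Real.exp (s * Xf lab g / 2) := by
  have h1 : ∀ p : Fin N, Rp Q lab s p = (if ¬ Int' p then MR Q lab s else 0) +
      ∑ g ∈ LE Q, (if Int' p ∧ ¬ An Q p g then Real.exp (s * Xf lab g / 2) else 0) := by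
    intro p
    unfold Rp
    by_cases hp : Int' p
    · rw [if_pos hp, if_neg (not_not.2 hp), zero_add, Finset.sum_filter]
      refine Finset.sum_congr rfl fun g _ => ?_
      by_cases h2 : An Q p g
      · rw [if_neg (not_not.2 h2), if_neg (fun h => h.2 h2)]
      · rw [if_pos h2, if_pos ⟨hp, h2⟩]
    · rw [if_neg hp, if_pos hp]
      have : ∑ g ∈ LE Q, (if Int' p ∧ ¬ An Q p g then Real.exp (s * Xf lab g / 2) else 0) = 0 :=
        Finset.sum_eq_zero fun g _ => if_neg (fun h => hp h.1)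
      rw [this, add_zero]
  rw [Finset.sum_congr rfl fun p _ => h1 p, Finset.sum_add_distrib]
  refine add_le_add ?_ (le_of_eq ?_)
  · rw [← Finset.sum_filter, Finset.sum_const, nsmul_eq_mul]
    have h2 : ((Finset.univ.filter fun p : Fin N => ¬ Int' p).card : ℝ) ≤ 2 := by
      exact_mod_cast card_notInt
    exact mul_le_mul_of_nonneg_right h2 (MR_nonneg Q lab s)
  · rw [Finset.sum_comm]
    refine Finset.sum_congr rfl fun g _ => ?_
    rw [← Finset.sum_filter, Finset.sum_const, nsmul_eq_mul]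
    unfold nw
    congr

theorem local_lemmaA {N : ℕ} {Q : Rel (N + 1)} {lab : Fin (N + 1) → ℕ} (hn : Nat' Q lab)
    (z : ℂ) (hz : ‖z‖ ≤ 1 / 10) :
    ‖∑ g ∈ LE Q, ((Xf lab g - adj Q g : ℝ) : ℂ) * Complex.exp (z * Xf lab g / 2) -
      z * N / 6 * MC Q lab z‖ ≤
      10 * ‖z‖ * ((1 + ‖z‖ * N) * MR Q lab z.re +
        ∑ g ∈ LE Q, (nw Q g : ℝ) * Real.exp (z.re * Xf lab g / 2)) := by
  have h1 : ∑ g ∈ LE Q, ((Xf lab g - adj Q g : ℝ) : ℂ) * Complex.exp (z * Xf lab g / 2) =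
      ∑ p : Fin N, ∑ g ∈ LE Q, (ep Q lab p g : ℂ) * Complex.exp (z * Xf lab g / 2) := by
    rw [Finset.sum_comm]
    refine Finset.sum_congr rfl fun g _ => ?_
    rw [← Finset.sum_mul]
    congr 1
    have h2 : Xf lab g - adj Q g = ∑ p : Fin N, ep Q lab p g := by
      have := Xf_eq hn g
      linarith
    rw [h2]
    push_cast
    rfl
  have h2 : z * N / 6 * MC Q lab z = ∑ _p : Fin N, z / 6 * MC Q lab z := by
    rw [Finset.sum_const, Finset.card_univ, Fintype.card_fin, nsmul_eq_mul]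
    ring
  rw [h1, h2, ← Finset.sum_sub_distrib]
  refine (norm_sum_le _ _).trans ?_
  refine (Finset.sum_le_sum fun p _ => one_pos hn p z hz).trans ?_
  rw [Finset.sum_add_distrib, Finset.sum_const, Finset.card_univ, Fintype.card_fin, nsmul_eq_mul,
    ← Finset.mul_sum]
  have h3 := mul_le_mul_of_nonneg_left (sum_Rp Q lab z.re) (norm_nonneg z)
  have h4 := MR_nonneg Q lab z.re
  have h5 : 0 ≤ ∑ g ∈ LE Q, (nw Q g : ℝ) * Real.exp (z.re * Xf lab g / 2) :=
    Finset.sum_nonneg fun g _ => mul_nonneg (Nat.cast_nonneg _) (Real.exp_pos _).le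
  have h6 := norm_nonneg z
  have h7 : 0 ≤ ‖z‖ * MR Q lab z.re := by positivity
  have h8 : 0 ≤ ‖z‖ * ∑ g ∈ LE Q, (nw Q g : ℝ) * Real.exp (z.re * Xf lab g / 2) := by positivity
  have h9 : 0 ≤ (N : ℝ) * (‖z‖ ^ 2 * MR Q lab z.re) := by positivity
  nlinarith

theorem local_realA {N : ℕ} {Q : Rel (N + 1)} {lab : Fin (N + 1) → ℕ} (hn : Nat' Q lab)
    (s : ℝ) (hs : |s| ≤ 1 / 10) :
    |∑ g ∈ LE Q, (Xf lab g - adj Q g) * Real.exp (s * Xf lab g / 2) - s * N / 6 * MR Q lab s| ≤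
      10 * |s| * ((1 + |s| * N) * MR Q lab s +
        ∑ g ∈ LE Q, (nw Q g : ℝ) * Real.exp (s * Xf lab g / 2)) := by
  have h1 := local_lemmaA hn (s : ℂ) (by rw [Complex.norm_real, Real.norm_eq_abs]; exact hs)
  rw [Complex.norm_real, Real.norm_eq_abs, Complex.ofReal_re] at h1
  refine le_trans (le_of_eq ?_) h1
  rw [← Real.norm_eq_abs, ← Complex.norm_real]
  congr 1
  unfold MC MR
  push_cast
  rfl

end Pool.NL48
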