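import Pool.Agent.NL48.OdeA

set_option autoImplicit false

/-!
# NL48/Ode: the moment generating function on a short vertical segment 
-/

namespace Pool.NL48

open Pool.HB45 Pool.PH43

/-- SEGMENT. PROOF. `f y = MC (s + iy) e^(-(s+iy) G/2 - (s+iy)² N/24)`, `f' y = i/2 (Σ X e^(zX/2) - (G + zN/6) MC z) e^(…)`,
`‖f' y‖ ≤ 1/2 (10 ‖z‖ ((1 + ‖z‖ N) MR s + Σ nw e^(sX/2)) + Σ |adj - G| e^(sX/2)) * e^(-sG/2 - s²N/24 + y²N/24)` by
`local_lemma`; `f 0 = MR s e^(-sG/2 - s²N/24)`; mean value inequality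
(`Convex.norm_image_sub_le_of_norm_hasDerivWithin_le` on the segment) and multiply by `e^(zG/2 + z²N/24)`. -/
theorem segment {N : ℕ} {Q : Rel (N + 1)} {lab : Fin (N + 1) → ℕ} (hn : Nat' Q lab)
    (s y Y E : ℝ) (hy : |y| ≤ Y) (hz : |s| + Y ≤ 1 / 10)
    (hE : 10 * (|s| + Y) * ((1 + (|s| + Y) * N) * MR Q lab s +
        ∑ g ∈ LE Q, (nw Q g : ℝ) * Real.exp (s * Xf lab g / 2)) +
      ∑ g ∈ LE Q, |(adj Q g : ℝ) - Gm Q| * Real.exp (s * Xf lab g / 2) ≤ E * MR Q lab s) :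
    ‖MC Q lab ((s : ℂ) + y * Complex.I) * Complex.exp (-(y * (Gm Q / 2 + s * N / 12) * Complex.I)) -
      (MR Q lab s * Real.exp (-(y ^ 2 * N / 24)) : ℝ)‖ ≤
      Y * Real.exp (Y ^ 2 * N / 24) * E * MR Q lab s := by
  exact segmentA hn s y Y E hy hz hE

/-- `aeval` of `Wp` on the circle of radius `e^(-s)` -/
theorem aeval_MC {N : ℕ} (Q : Rel (N + 1)) (lab : Fin (N + 1) → ℕ) (s θ : ℝ) :
    Polynomial.aeval ((Real.exp (-s) : ℂ) * Complex.exp (θ * Complex.I)) (Wp Q lab) =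
      MC Q lab ((s : ℂ) - θ * Complex.I) * Complex.exp (-(((s : ℂ) - θ * Complex.I) * N / 2)) := by
  unfold Wp MC
  rw [map_sum, Finset.sum_mul]
  refine Finset.sum_congr rfl fun g _ => ?_
  rw [map_pow, Polynomial.aeval_X, ← Complex.exp_add]
  rw [Complex.ofReal_exp, ← Complex.exp_add, ← Complex.exp_nat_mul]
  congr 1
  unfold Xf
  push_cast
  ring

end Pool.NL48
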