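import Pool.Agent.NL48.Loc

set_option autoImplicit false

/-!
# NL48/OdeA: proof of the segment lemma
-/

namespace Pool.NL48

open Pool.HB45 Pool.PH43

theorem hasDerivAt_MC {N : ℕ} (Q : Rel (N + 1)) (lab : Fin (N + 1) → ℕ) (z : ℂ) :
    HasDerivAt (MC Q lab) (∑ g ∈ LE Q, Complex.exp (z * Xf lab g / 2) * ((Xf lab g : ℂ) / 2)) z := by
  unfold MC
  refine HasDerivAt.fun_sum fun g _ => ?_
  have h1 : HasDerivAt (fun z : ℂ => z * Xf lab g / 2) (1 * (Xf lab g : ℂ) / 2) z :=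
    ((hasDerivAt_id z).mul_const _).div_const _
  rw [one_mul] at h1
  exact h1.cexp

theorem norm_exp_Xf {N : ℕ} (lab : Fin (N + 1) → ℕ) (g : Equiv.Perm (Fin (N + 1))) (s τ : ℝ) :
    ‖Complex.exp (((s : ℂ) + τ * Complex.I) * Xf lab g / 2)‖ = Real.exp (s * Xf lab g / 2) := by
  rw [Complex.norm_exp]
  congr 1
  have h1 : ((s : ℂ) + τ * Complex.I) * Xf lab g / 2 =
      ((s * Xf lab g / 2 : ℝ) : ℂ) + ((τ * Xf lab g / 2 : ℝ) : ℂ) * Complex.I := by
    push_cast
    ring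
  rw [h1]
  simp

theorem segmentA {N : ℕ} {Q : Rel (N + 1)} {lab : Fin (N + 1) → ℕ} (hn : Nat' Q lab)
    (s y Y E : ℝ) (hy : |y| ≤ Y) (hz : |s| + Y ≤ 1 / 10)
    (hE : 10 * (|s| + Y) * ((1 + (|s| + Y) * N) * MR Q lab s +
        ∑ g ∈ LE Q, (nw Q g : ℝ) * Real.exp (s * Xf lab g / 2)) +
      ∑ g ∈ LE Q, |(adj Q g : ℝ) - Gm Q| * Real.exp (s * Xf lab g / 2) ≤ E * MR Q lab s) :
    ‖MC Q lab ((s : ℂ) + y * Complex.I) * Complex.exp (-(y * (Gm Q / 2 + s * N / 12) * Complex.I)) -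
      (MR Q lab s * Real.exp (-(y ^ 2 * N / 24)) : ℝ)‖ ≤
      Y * Real.exp (Y ^ 2 * N / 24) * E * MR Q lab s := by
  have hY : 0 ≤ Y := (abs_nonneg y).trans hy
  have hMR : 0 ≤ MR Q lab s := Finset.sum_nonneg fun g _ => (Real.exp_pos _).le
  have hnw : 0 ≤ ∑ g ∈ LE Q, (nw Q g : ℝ) * Real.exp (s * Xf lab g / 2) :=
    Finset.sum_nonneg fun g _ => by positivity
  have had : 0 ≤ ∑ g ∈ LE Q, |(adj Q g : ℝ) - Gm Q| * Real.exp (s * Xf lab g / 2) :=
    Finset.sum_nonneg fun g _ => by positivity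
  have hEM : 0 ≤ E * MR Q lab s := le_trans (by positivity) hE
  obtain ⟨G, hG⟩ : ∃ G : ℝ, G = Gm Q := ⟨_, rfl⟩
  rw [← hG] at hE ⊢
  obtain ⟨K, hK⟩ : ∃ K : ℝ, K = -(s * G / 2 + s ^ 2 * N / 24) := ⟨_, rfl⟩
  -- the derivative along the segment
  have hder : ∀ τ : ℝ, HasDerivAt
      (fun τ : ℝ => MC Q lab ((s : ℂ) + τ * Complex.I) *
        Complex.exp (-(((s : ℂ) + τ * Complex.I) * G / 2 + ((s : ℂ) + τ * Complex.I) ^ 2 * N / 24)))
      (Complex.I / 2 * ((∑ g ∈ LE Q, ((Xf lab g - adj Q g : ℝ) : ℂ) *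
          Complex.exp (((s : ℂ) + τ * Complex.I) * Xf lab g / 2) -
          ((s : ℂ) + τ * Complex.I) * N / 6 * MC Q lab ((s : ℂ) + τ * Complex.I)) +
        ∑ g ∈ LE Q, ((adj Q g - G : ℝ) : ℂ) *
          Complex.exp (((s : ℂ) + τ * Complex.I) * Xf lab g / 2)) *
        Complex.exp (-(((s : ℂ) + τ * Complex.I) * G / 2 +
          ((s : ℂ) + τ * Complex.I) ^ 2 * N / 24))) τ := by
    intro τ
    have h0 : ∀ w : ℂ, HasDerivAt (fun w : ℂ => (s : ℂ) + w * Complex.I) Complex.I w := by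
      intro w
      simpa using ((hasDerivAt_id w).mul_const Complex.I).const_add (s : ℂ)
    have h1 := (hasDerivAt_MC Q lab ((s : ℂ) + (τ : ℂ) * Complex.I)).comp (τ : ℂ) (h0 τ)
    have h2 : HasDerivAt (fun w : ℂ => Complex.exp (-(((s : ℂ) + w * Complex.I) * G / 2 +
        ((s : ℂ) + w * Complex.I) ^ 2 * N / 24)))
        (Complex.exp (-(((s : ℂ) + τ * Complex.I) * G / 2 +
          ((s : ℂ) + τ * Complex.I) ^ 2 * N / 24)) *
          (-(Complex.I * G / 2 + (2 * ((s : ℂ) + τ * Complex.I) * Complex.I) * N / 24))) (τ : ℂ) := by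
      have h3 : HasDerivAt (fun w : ℂ => ((s : ℂ) + w * Complex.I) ^ 2)
          (2 * ((s : ℂ) + τ * Complex.I) * Complex.I) (τ : ℂ) := by
        simpa using (h0 (τ : ℂ)).fun_pow 2
      exact ((((h0 (τ : ℂ)).mul_const (G : ℂ)).div_const 2).add
        ((h3.mul_const (N : ℂ)).div_const 24)).neg.cexp
    have h4 := (h1.mul h2).comp_ofReal
    refine h4.congr_deriv ?_
    have h5 : ∑ g ∈ LE Q, ((Xf lab g - adj Q g : ℝ) : ℂ) *
          Complex.exp (((s : ℂ) + τ * Complex.I) * Xf lab g / 2) +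
        ∑ g ∈ LE Q, ((adj Q g - G : ℝ) : ℂ) *
          Complex.exp (((s : ℂ) + τ * Complex.I) * Xf lab g / 2) =
        2 * (∑ g ∈ LE Q, Complex.exp (((s : ℂ) + τ * Complex.I) * Xf lab g / 2) *
          ((Xf lab g : ℂ) / 2)) - G * MC Q lab ((s : ℂ) + τ * Complex.I) := by
      unfold MC
      rw [← Finset.sum_add_distrib, Finset.mul_sum, Finset.mul_sum, ← Finset.sum_sub_distrib]
      refine Finset.sum_congr rfl fun g _ => ?_
      push_cast
      ring
    have h6 : ∀ a b c d e : ℂ, a + b = 2 * c - d → a - e + b = 2 * c - d - e := by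
      intro a b c d e h
      linear_combination h
    rw [h6 _ _ _ _ _ h5]
    simp only [Function.comp]
    ring
  -- the bound of the derivative
  have hbound : ∀ τ ∈ Set.Icc (-Y) Y, ‖Complex.I / 2 * ((∑ g ∈ LE Q, ((Xf lab g - adj Q g : ℝ) : ℂ) *
          Complex.exp (((s : ℂ) + (τ : ℝ) * Complex.I) * Xf lab g / 2) -
          ((s : ℂ) + τ * Complex.I) * N / 6 * MC Q lab ((s : ℂ) + τ * Complex.I)) +
        ∑ g ∈ LE Q, ((adj Q g - G : ℝ) : ℂ) *
          Complex.exp (((s : ℂ) + τ * Complex.I) * Xf lab g / 2)) *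
        Complex.exp (-(((s : ℂ) + τ * Complex.I) * G / 2 +
          ((s : ℂ) + τ * Complex.I) ^ 2 * N / 24))‖ ≤
        1 / 2 * (E * MR Q lab s) * (Real.exp K * Real.exp (Y ^ 2 * N / 24)) := by
    intro τ hτ
    have hτ' : |τ| ≤ Y := abs_le.2 hτ
    have hnz : ‖(s : ℂ) + τ * Complex.I‖ ≤ |s| + Y := by
      refine (norm_add_le _ _).trans ?_
      rw [norm_mul, Complex.norm_I, mul_one, Complex.norm_real, Complex.norm_real]
      exact add_le_add le_rfl hτ'
    have hre : ((s : ℂ) + τ * Complex.I).re = s := by simp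
    have h1 := local_lemma hn ((s : ℂ) + τ * Complex.I) (hnz.trans hz)
    rw [hre] at h1
    have h2 : 10 * ‖(s : ℂ) + τ * Complex.I‖ *
        ((1 + ‖(s : ℂ) + τ * Complex.I‖ * N) * MR Q lab s +
          ∑ g ∈ LE Q, (nw Q g : ℝ) * Real.exp (s * Xf lab g / 2)) ≤
        10 * (|s| + Y) * ((1 + (|s| + Y) * N) * MR Q lab s +
          ∑ g ∈ LE Q, (nw Q g : ℝ) * Real.exp (s * Xf lab g / 2)) := by
      gcongr
    have h3 : ‖∑ g ∈ LE Q, ((adj Q g - G : ℝ) : ℂ) *
          Complex.exp (((s : ℂ) + τ * Complex.I) * Xf lab g / 2)‖ ≤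
        ∑ g ∈ LE Q, |(adj Q g : ℝ) - G| * Real.exp (s * Xf lab g / 2) := by
      refine (norm_sum_le _ _).trans (Finset.sum_le_sum fun g _ => ?_)
      rw [norm_mul, Complex.norm_real, norm_exp_Xf]
      exact le_rfl
    have h4 : ‖Complex.exp (-(((s : ℂ) + τ * Complex.I) * G / 2 +
          ((s : ℂ) + τ * Complex.I) ^ 2 * N / 24))‖ ≤ Real.exp K * Real.exp (Y ^ 2 * N / 24) := by
      rw [Complex.norm_exp, ← Real.exp_add, Real.exp_le_exp]
      have h5 : -(((s : ℂ) + τ * Complex.I) * G / 2 + ((s : ℂ) + τ * Complex.I) ^ 2 * N / 24) =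
          ((K + τ ^ 2 * N / 24 : ℝ) : ℂ) +
            ((-(τ * G / 2 + 2 * s * τ * N / 24) : ℝ) : ℂ) * Complex.I := by
        rw [hK]
        push_cast
        linear_combination (-(τ : ℂ) ^ 2 * N / 24) * Complex.I_sq
      rw [h5]
      have h6 : τ ^ 2 ≤ Y ^ 2 := sq_le_sq' (by linarith [hτ.1]) hτ.2
      have h7 : τ ^ 2 * N / 24 ≤ Y ^ 2 * N / 24 := by
        have : (0 : ℝ) ≤ N := Nat.cast_nonneg _
        have := mul_le_mul_of_nonneg_right h6 this
        linarith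
      simp only [Complex.add_re, Complex.ofReal_re, Complex.mul_re, Complex.I_re, mul_zero,
        Complex.ofReal_im, Complex.I_im, mul_one, sub_self, add_zero]
      linarith
    rw [norm_mul, norm_mul]
    have h8 : ‖Complex.I / 2‖ = 1 / 2 := by
      rw [norm_div, Complex.norm_I]
      norm_num
    rw [h8]
    refine mul_le_mul ?_ h4 (norm_nonneg _) (by positivity)
    refine mul_le_mul_of_nonneg_left ?_ (by norm_num)
    refine (norm_add_le _ _).trans ?_
    linarith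
  have hmv := Convex.norm_image_sub_le_of_norm_hasDerivWithin_le
    (fun τ _ => (hder τ).hasDerivWithinAt) hbound (convex_Icc (-Y) Y)
    (show (0 : ℝ) ∈ Set.Icc (-Y) Y from ⟨by linarith, hY⟩)
    (show y ∈ Set.Icc (-Y) Y from abs_le.1 hy)
  -- multiply
  have hmul : MC Q lab ((s : ℂ) + y * Complex.I) *
        Complex.exp (-(y * (G / 2 + s * N / 12) * Complex.I)) -
      (MR Q lab s * Real.exp (-(y ^ 2 * N / 24)) : ℝ) =
      ((Real.exp (-K - y ^ 2 * N / 24) : ℝ) : ℂ) *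
      (MC Q lab ((s : ℂ) + y * Complex.I) *
        Complex.exp (-(((s : ℂ) + y * Complex.I) * G / 2 + ((s : ℂ) + y * Complex.I) ^ 2 * N / 24)) -
      MC Q lab ((s : ℂ) + (0 : ℝ) * Complex.I) *
        Complex.exp (-(((s : ℂ) + (0 : ℝ) * Complex.I) * G / 2 +
          ((s : ℂ) + (0 : ℝ) * Complex.I) ^ 2 * N / 24))) := by
    have e1 : Complex.exp (-(y * (G / 2 + s * N / 12) * Complex.I)) =
        ((Real.exp (-K - y ^ 2 * N / 24) : ℝ) : ℂ) *
        Complex.exp (-(((s : ℂ) + y * Complex.I) * G / 2 +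
          ((s : ℂ) + y * Complex.I) ^ 2 * N / 24)) := by
      rw [Complex.ofReal_exp, ← Complex.exp_add]
      congr 1
      rw [hK]
      push_cast
      linear_combination ((y : ℂ) ^ 2 * N / 24) * Complex.I_sq
    have e2 : ((MR Q lab s * Real.exp (-(y ^ 2 * N / 24)) : ℝ) : ℂ) =
        ((Real.exp (-K - y ^ 2 * N / 24) : ℝ) : ℂ) * (MC Q lab ((s : ℂ) + (0 : ℝ) * Complex.I) *
        Complex.exp (-(((s : ℂ) + (0 : ℝ) * Complex.I) * G / 2 +
          ((s : ℂ) + (0 : ℝ) * Complex.I) ^ 2 * N / 24))) := by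
      have e3 : MC Q lab ((s : ℂ) + (0 : ℝ) * Complex.I) = (MR Q lab s : ℂ) := by
        unfold MC MR
        push_cast
        refine Finset.sum_congr rfl fun g _ => ?_
        congr 1
        ring
      rw [e3, mul_left_comm, Complex.ofReal_exp, ← Complex.exp_add]
      push_cast
      congr 2
      rw [hK]
      push_cast
      ring
    rw [e1, e2]
    ring
  rw [hmul, norm_mul, Complex.norm_real, Real.norm_eq_abs, abs_of_pos (Real.exp_pos _)]
  refine (mul_le_mul_of_nonneg_left hmv (Real.exp_pos _).le).trans ?_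
  rw [sub_zero, Real.norm_eq_abs]
  have h1 : Real.exp (-K - y ^ 2 * N / 24) * Real.exp K ≤ 1 := by
    rw [← Real.exp_add, Real.exp_le_one_iff]
    have : (0 : ℝ) ≤ y ^ 2 * N / 24 := by positivity
    linarith
  have h2 : 0 < Real.exp (Y ^ 2 * N / 24) := Real.exp_pos _
  calc Real.exp (-K - y ^ 2 * N / 24) *
        (1 / 2 * (E * MR Q lab s) * (Real.exp K * Real.exp (Y ^ 2 * N / 24)) * |y|)
      = (Real.exp (-K - y ^ 2 * N / 24) * Real.exp K) *
        (1 / 2 * (E * MR Q lab s) * Real.exp (Y ^ 2 * N / 24) * |y|) := by ring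
    _ ≤ 1 * (1 / 2 * (E * MR Q lab s) * Real.exp (Y ^ 2 * N / 24) * |y|) :=
        mul_le_mul_of_nonneg_right h1 (by positivity)
    _ ≤ 1 * (1 / 2 * (E * MR Q lab s) * Real.exp (Y ^ 2 * N / 24) * Y) := by
        refine mul_le_mul_of_nonneg_left ?_ zero_le_one
        exact mul_le_mul_of_nonneg_left hy (by positivity)
    _ ≤ Y * Real.exp (Y ^ 2 * N / 24) * E * MR Q lab s := by
        have : 0 ≤ E * MR Q lab s * Real.exp (Y ^ 2 * N / 24) * Y := by positivity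
        linarith

end Pool.NL48
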