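import Pool.Agent.NL48.SwpA
import Pool.Agent.NL48.Defs
import Pool.Agent.SC25.Flip

set_option autoImplicit false

/-!
# NL48/Swp: the swap identity
-/

namespace Pool.NL48

open Pool.HB45 Pool.PH43

/-- `X = adj + Σ ep` (comparable neighbours are ascents: `Nat'`) -/
theorem Xf_eq {N : ℕ} {Q : Rel (N + 1)} {lab : Fin (N + 1) → ℕ} (hn : Nat' Q lab)
    (g : Equiv.Perm (Fin (N + 1))) : Xf lab g = adj Q g + ∑ p : Fin N, ep Q lab p g :=
  Xf_eqA hn g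

/-- SWAP. The map `g ↦ sw g p` is an involution of the words of `LE Q` with incomparable letters at `p`, and
`ep p (sw g p) = - ep p g`; `ep p g = 0` if the letters are comparable. -/
theorem sum_ep {N : ℕ} {Q : Rel (N + 1)} {lab : Fin (N + 1) → ℕ} (hn : Nat' Q lab) (p : Fin N)
    (F : Equiv.Perm (Fin (N + 1)) → ℂ) :
    ∑ g ∈ LE Q, (ep Q lab p g : ℂ) * F g =
      1 / 2 * ∑ g ∈ LE Q, (ep Q lab p g : ℂ) * (F g - F (sw g p)) :=
  sum_epA hn p F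

/-- `|ep| ≤ 1` -/
theorem ep_abs {N : ℕ} (Q : Rel (N + 1)) (lab : Fin (N + 1) → ℕ) (p : Fin N)
    (g : Equiv.Perm (Fin (N + 1))) : |ep Q lab p g| ≤ 1 :=
  ep_absA Q lab p g

/-- `|D| ≤ 2` (`SC25.des_sw`) -/
theorem Dl_abs {N : ℕ} {lab : Fin (N + 1) → ℕ} (hinj : Function.Injective lab) (p : Fin N)
    (g : Equiv.Perm (Fin (N + 1))) : |Dl lab p g| ≤ 2 :=
  Dl_absA hinj p g

/-- `sum_ep` with `F g = e^(zX/2)`: `F g - F (sw g p) = e^(zX/2) (1 - e^(-z D/2))`, and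
`‖1 - e^(-w) - w‖ ≤ ‖w‖²` for `‖w‖ ≤ 1`, `w = z D / 2`, `‖w‖ ≤ ‖z‖`. `‖e^(zX/2)‖ = e^(sX/2)`. -/
theorem sum_ep_exp {N : ℕ} {Q : Rel (N + 1)} {lab : Fin (N + 1) → ℕ} (hn : Nat' Q lab) (p : Fin N)
    (z : ℂ) (hz : ‖z‖ ≤ 1) :
    ‖∑ g ∈ LE Q, (ep Q lab p g : ℂ) * Complex.exp (z * Xf lab g / 2) -
      z / 4 * ∑ g ∈ LE Q, ((ep Q lab p g * Dl lab p g : ℝ) : ℂ) * Complex.exp (z * Xf lab g / 2)‖ ≤
      1 / 2 * ‖z‖ ^ 2 * MR Q lab z.re := by
  rw [sum_ep hn p (fun g => Complex.exp (z * Xf lab g / 2))]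
  have h1 : 1 / 2 * ∑ g ∈ LE Q, (ep Q lab p g : ℂ) *
      (Complex.exp (z * Xf lab g / 2) - Complex.exp (z * Xf lab (sw g p) / 2)) -
      z / 4 * ∑ g ∈ LE Q, ((ep Q lab p g * Dl lab p g : ℝ) : ℂ) * Complex.exp (z * Xf lab g / 2) =
      ∑ g ∈ LE Q, 1 / 2 * ((ep Q lab p g : ℂ) * (Complex.exp (z * Xf lab g / 2) *
        (-(Complex.exp (-(z * Dl lab p g / 2)) - 1 - -(z * Dl lab p g / 2))))) := by
    rw [Finset.mul_sum, Finset.mul_sum, ← Finset.sum_sub_distrib]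
    apply Finset.sum_congr rfl
    intro g _
    have h2 : Complex.exp (z * Xf lab (sw g p) / 2) =
        Complex.exp (z * Xf lab g / 2) * Complex.exp (-(z * Dl lab p g / 2)) := by
      rw [← Complex.exp_add]
      congr 1
      unfold Dl
      push_cast
      ring
    rw [h2]
    push_cast
    ring
  rw [h1]
  refine (norm_sum_le _ _).trans ?_
  unfold MR
  rw [Finset.mul_sum]
  apply Finset.sum_le_sum
  intro g _
  have h3 : ‖z * (Dl lab p g : ℂ) / 2‖ ≤ ‖z‖ := by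
    rw [norm_div, norm_mul, Complex.norm_real, Real.norm_eq_abs, Complex.norm_ofNat]
    have h4 := Dl_abs hn.inj p g
    have h5 := mul_le_mul_of_nonneg_left h4 (norm_nonneg z)
    linarith
  have h4 : ‖-(z * (Dl lab p g : ℂ) / 2)‖ ≤ 1 := by
    rw [norm_neg]
    exact h3.trans hz
  have h5 := Complex.norm_exp_sub_one_sub_id_le h4
  rw [norm_neg] at h5
  have h6 : ‖z * (Dl lab p g : ℂ) / 2‖ ^ 2 ≤ ‖z‖ ^ 2 := pow_le_pow_left₀ (norm_nonneg _) h3 2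
  have h7 : ‖Complex.exp (z * Xf lab g / 2)‖ = Real.exp (z.re * Xf lab g / 2) := by
    rw [Complex.norm_exp]
    congr 1
    have : z * (Xf lab g : ℂ) / 2 = z * ((Xf lab g / 2 : ℝ) : ℂ) := by push_cast; ring
    rw [this, Complex.re_mul_ofReal]
    ring
  rw [norm_mul, norm_mul, norm_mul, norm_neg, h7, Complex.norm_real, Real.norm_eq_abs]
  have h8 : ‖(1 / 2 : ℂ)‖ = 1 / 2 := by norm_num
  rw [h8]
  have h9 := ep_abs Q lab p g
  have h10 : 0 < Real.exp (z.re * Xf lab g / 2) := Real.exp_pos _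
  calc 1 / 2 * (|ep Q lab p g| * (Real.exp (z.re * Xf lab g / 2) *
        ‖Complex.exp (-(z * (Dl lab p g : ℂ) / 2)) - 1 - -(z * (Dl lab p g : ℂ) / 2)‖))
      ≤ 1 / 2 * (1 * (Real.exp (z.re * Xf lab g / 2) * ‖z‖ ^ 2)) := by
        apply mul_le_mul_of_nonneg_left _ (by norm_num)
        apply mul_le_mul h9 _ (by positivity) (by norm_num)
        exact mul_le_mul_of_nonneg_left (h5.trans h6) h10.le
    _ = 1 / 2 * ‖z‖ ^ 2 * Real.exp (z.re * Xf lab g / 2) := by ring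

end Pool.NL48
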