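import Pool.Agent.NL48.Defs
import Pool.Agent.SC25.Flip

set_option autoImplicit false

/-!
# NL48/SwpA: the swap identity, four parts
-/

namespace Pool.NL48

open Pool.HB45 Pool.PH43

theorem Xf_eqA {N : ℕ} {Q : Rel (N + 1)} {lab : Fin (N + 1) → ℕ} (hn : Nat' Q lab)
    (g : Equiv.Perm (Fin (N + 1))) : Xf lab g = adj Q g + ∑ p : Fin N, ep Q lab p g := by
  classical
  unfold Xf adj adjs des
  rw [Finset.card_filter, Finset.card_filter]
  push_cast
  have h1 : (N : ℝ) = ∑ _p : Fin N, (1 : ℝ) := by simp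
  rw [h1, Finset.mul_sum, ← Finset.sum_sub_distrib, ← Finset.sum_add_distrib]
  refine Finset.sum_congr rfl fun p _ => ?_
  unfold ep
  by_cases hQ : Q (g p.castSucc) (g p.succ)
  · have h2 := hn.mono _ _ hQ
    rw [if_pos hQ, if_pos hQ, if_neg (by omega)]
    norm_num
  · rw [if_neg hQ, if_neg hQ]
    split_ifs <;> norm_num

theorem ep_sw {N : ℕ} {Q : Rel (N + 1)} {lab : Fin (N + 1) → ℕ} (hn : Nat' Q lab) (p : Fin N)
    {g : Equiv.Perm (Fin (N + 1))} (hg : ¬ Q (g p.castSucc) (g p.succ))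
    (hg' : ¬ Q (g p.succ) (g p.castSucc)) :
    ep Q lab p (sw g p) = - ep Q lab p g := by
  classical
  unfold ep
  rw [sw_left, sw_right, if_neg hg, if_neg hg']
  have hne : lab (g p.castSucc) ≠ lab (g p.succ) := by
    intro h
    have h1 := g.injective (hn.inj h)
    have h2 : p.castSucc.val = p.succ.val := by rw [h1]
    have hc : p.castSucc.val = p.val := rfl
    have hs : p.succ.val = p.val + 1 := rfl
    omega
  rcases lt_or_gt_of_ne hne with h | h
  · rw [if_pos h, if_neg (by omega)]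
  · rw [if_neg (by omega), if_pos h]
    norm_num

theorem not_Q_back {N : ℕ} {Q : Rel (N + 1)} {g : Equiv.Perm (Fin (N + 1))} (hg : g ∈ LE Q)
    (p : Fin N) : ¬ Q (g p.succ) (g p.castSucc) := by
  intro h
  have h1 := mem_LE.1 hg _ _ h
  rw [Fin.lt_def] at h1
  have hc : p.castSucc.val = p.val := rfl
  have hs : p.succ.val = p.val + 1 := rfl
  omega

theorem sum_epA {N : ℕ} {Q : Rel (N + 1)} {lab : Fin (N + 1) → ℕ} (hn : Nat' Q lab) (p : Fin N)
    (F : Equiv.Perm (Fin (N + 1)) → ℂ) :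
    ∑ g ∈ LE Q, (ep Q lab p g : ℂ) * F g =
      1 / 2 * ∑ g ∈ LE Q, (ep Q lab p g : ℂ) * (F g - F (sw g p)) := by
  classical
  have h0 : ∀ g : Equiv.Perm (Fin (N + 1)), Q (g p.castSucc) (g p.succ) → ep Q lab p g = 0 := by
    intro g hg
    unfold ep
    rw [if_pos hg]
  have hred : ∀ H : Equiv.Perm (Fin (N + 1)) → ℂ, ∑ g ∈ LE Q, (ep Q lab p g : ℂ) * H g =
      ∑ g ∈ (LE Q).filter (fun g => ¬ Q (g p.castSucc) (g p.succ)), (ep Q lab p g : ℂ) * H g := by
    intro H
    rw [Finset.sum_filter]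
    refine Finset.sum_congr rfl fun g _ => ?_
    by_cases hg : Q (g p.castSucc) (g p.succ)
    · rw [if_neg (not_not.2 hg), h0 g hg]
      simp
    · rw [if_pos hg]
  have hinv : ∑ g ∈ (LE Q).filter (fun g => ¬ Q (g p.castSucc) (g p.succ)),
      (ep Q lab p g : ℂ) * F (sw g p) =
      - ∑ g ∈ (LE Q).filter (fun g => ¬ Q (g p.castSucc) (g p.succ)), (ep Q lab p g : ℂ) * F g := by
    rw [← Finset.sum_neg_distrib]
    refine Finset.sum_nbij' (fun g => sw g p) (fun g => sw g p) ?_ ?_ ?_ ?_ ?_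
    · intro g hg
      rw [Finset.mem_filter] at hg ⊢
      refine ⟨sw_mem hg.1 hg.2, ?_⟩
      rw [sw_left, sw_right]
      exact not_Q_back hg.1 p
    · intro g hg
      rw [Finset.mem_filter] at hg ⊢
      refine ⟨sw_mem hg.1 hg.2, ?_⟩
      rw [sw_left, sw_right]
      exact not_Q_back hg.1 p
    · intro g _
      exact sw_sw p g
    · intro g _
      exact sw_sw p g
    · intro g hg
      rw [Finset.mem_filter] at hg
      rw [ep_sw hn p hg.2 (not_Q_back hg.1 p)]
      push_cast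
      ring
  rw [hred F, hred fun g => F g - F (sw g p)]
  simp only [mul_sub, Finset.sum_sub_distrib]
  rw [hinv]
  ring

theorem ep_absA {N : ℕ} (Q : Rel (N + 1)) (lab : Fin (N + 1) → ℕ) (p : Fin N)
    (g : Equiv.Perm (Fin (N + 1))) : |ep Q lab p g| ≤ 1 := by
  classical
  unfold ep
  split_ifs <;> norm_num

theorem Dl_absA {N : ℕ} {lab : Fin (N + 1) → ℕ} (hinj : Function.Injective lab) (p : Fin N)
    (g : Equiv.Perm (Fin (N + 1))) : |Dl lab p g| ≤ 2 := by
  unfold Dl Xf
  rcases SC25.des_sw hinj g p with h | h | h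
  · rw [h]
    norm_num
  · rw [h]
    push_cast
    rw [abs_le]
    constructor <;> linarith
  · rw [← h]
    push_cast
    rw [abs_le]
    constructor <;> linarith

end Pool.NL48
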