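import Pool.Agent.NL48.Swp
import Pool.Agent.PH48.WinRho

set_option autoImplicit false

/-!
# NL48/WinA: one window, from the sum over the window
-/

namespace Pool.NL48

open Pool.HB45 Pool.PH43

/-- `‖e^(zX/2)‖ = e^(sX/2)` -/
theorem norm_expX (z : ℂ) (x : ℝ) : ‖Complex.exp (z * x / 2)‖ = Real.exp (z.re * x / 2) := by
  rw [Complex.norm_exp]
  congr 1
  have h : z * (x : ℂ) / 2 = z * ((x / 2 : ℝ) : ℂ) := by
    push_cast
    ring
  rw [h, Complex.re_mul_ofReal]
  ring

/-- `‖e^(zy/2) - e^(zx/2)‖ ≤ 10 ‖z‖ e^(sx/2)` for `|y - x| ≤ 10` -/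
theorem norm_expX_sub (z : ℂ) (hz : ‖z‖ ≤ 1 / 10) (x y : ℝ) (h : |y - x| ≤ 10) :
    ‖Complex.exp (z * y / 2) - Complex.exp (z * x / 2)‖ ≤ 10 * ‖z‖ * Real.exp (z.re * x / 2) := by
  have e : Complex.exp (z * y / 2) - Complex.exp (z * x / 2) =
      Complex.exp (z * x / 2) * (Complex.exp (z * ((y - x : ℝ) : ℂ) / 2) - 1) := by
    rw [mul_sub, mul_one, ← Complex.exp_add]
    congr 2
    push_cast
    ring
  have hw : ‖z * ((y - x : ℝ) : ℂ) / 2‖ ≤ 5 * ‖z‖ := by
    rw [norm_div, norm_mul, Complex.norm_real, Real.norm_eq_abs]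
    have h2 : ‖(2 : ℂ)‖ = 2 := by norm_num
    rw [h2]
    have := mul_le_mul_of_nonneg_left h (norm_nonneg z)
    linarith
  have hw1 : ‖z * ((y - x : ℝ) : ℂ) / 2‖ ≤ 1 := by linarith
  have h3 := Complex.norm_exp_sub_one_le hw1
  rw [e, norm_mul, norm_expX]
  have h4 : ‖Complex.exp (z * ((y - x : ℝ) : ℂ) / 2) - 1‖ ≤ 10 * ‖z‖ := by linarith
  have := mul_le_mul_of_nonneg_left h4 (Real.exp_nonneg (z.re * x / 2))
  linarith

open Classical in
/-- ONE WINDOW from `sum_window` and `Xf_window` -/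
theorem one_window_of {N : ℕ} {Q : Rel (N + 1)} {lab : Fin (N + 1) → ℕ} (hn : Nat' Q lab) {p : Fin N}
    (hp : Int' p) (z : ℂ) (hz : ‖z‖ ≤ 1 / 10)
    (hS : ∀ g : Equiv.Perm (Fin (N + 1)), Anti (int_le hp) Q g →
      ∑ τ : Equiv.Perm (Fin 4),
        ep Q lab p (g * emb (int_le hp) τ) * Dl lab p (g * emb (int_le hp) τ) = 16)
    (hX : ∀ (g : Equiv.Perm (Fin (N + 1))) (τ : Equiv.Perm (Fin 4)),
      |Xf lab (g * emb (int_le hp) τ) - Xf lab g| ≤ 10) :
    ‖∑ g ∈ LE Q, ((ep Q lab p g * Dl lab p g : ℝ) : ℂ) * Complex.exp (z * Xf lab g / 2) -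
      2 / 3 * MC Q lab z‖ ≤
      30 * ‖z‖ * MR Q lab z.re +
        3 * ∑ g ∈ (LE Q).filter (fun g => ¬ An Q p g), Real.exp (z.re * Xf lab g / 2) := by
  set F : Equiv.Perm (Fin (N + 1)) → ℂ := fun g =>
    ((ep Q lab p g * Dl lab p g - 2 / 3 : ℝ) : ℂ) * Complex.exp (z * Xf lab g / 2) with hF
  have hc : ∀ g, |ep Q lab p g * Dl lab p g - 2 / 3| ≤ 3 := by
    intro g
    have h1 := ep_abs Q lab p g
    have h2 := Dl_abs hn.inj p g
    have h3 : |ep Q lab p g * Dl lab p g| ≤ 2 := by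
      rw [abs_mul]
      have := mul_le_mul h1 h2 (abs_nonneg _) (zero_le_one)
      linarith
    rw [abs_le] at h3 ⊢
    constructor <;> linarith [h3.1, h3.2]
  have e1 : ∑ g ∈ LE Q, ((ep Q lab p g * Dl lab p g : ℝ) : ℂ) * Complex.exp (z * Xf lab g / 2) -
      2 / 3 * MC Q lab z = ∑ g ∈ LE Q, F g := by
    unfold MC
    rw [Finset.mul_sum, ← Finset.sum_sub_distrib]
    refine Finset.sum_congr rfl fun g _ => ?_
    rw [hF]
    push_cast
    ring
  have hAn : ∀ g, An Q p g ↔ Anti (int_le hp) Q g := by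
    intro g
    constructor
    · rintro ⟨_, h⟩
      exact h
    · intro h
      exact ⟨hp, h⟩
  have e2 : ∑ g ∈ LE Q, F g = ∑ g ∈ LE Q, (if Anti (int_le hp) Q g then F g else 0) +
      ∑ g ∈ (LE Q).filter (fun g => ¬ An Q p g), F g := by
    rw [← Finset.sum_filter_add_sum_filter_not (LE Q) (fun g => An Q p g) F]
    congr 1
    rw [Finset.sum_filter]
    refine Finset.sum_congr rfl fun g _ => ?_
    simp only [hAn g]
  have b2 : ‖∑ g ∈ (LE Q).filter (fun g => ¬ An Q p g), F g‖ ≤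
      3 * ∑ g ∈ (LE Q).filter (fun g => ¬ An Q p g), Real.exp (z.re * Xf lab g / 2) := by
    refine (norm_sum_le _ _).trans ?_
    rw [Finset.mul_sum]
    refine Finset.sum_le_sum fun g _ => ?_
    rw [hF]
    change ‖((ep Q lab p g * Dl lab p g - 2 / 3 : ℝ) : ℂ) * Complex.exp (z * Xf lab g / 2)‖ ≤ _
    rw [norm_mul, norm_expX, Complex.norm_real, Real.norm_eq_abs]
    exact mul_le_mul_of_nonneg_right (hc g) (Real.exp_nonneg _)
  have b1 : ‖∑ g ∈ LE Q, (if Anti (int_le hp) Q g then F g else 0)‖ ≤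
      30 * ‖z‖ * MR Q lab z.re := by
    rw [avg (int_le hp) (fun g => if Anti (int_le hp) Q g then F g else 0)]
    refine (norm_sum_le _ _).trans ?_
    unfold MR
    rw [Finset.mul_sum]
    refine Finset.sum_le_sum fun π hπ => ?_
    by_cases hA : Anti (int_le hp) Q π
    · have hall : LE (winRel (int_le hp) Q π) = Finset.univ := by
        refine Finset.eq_univ_of_forall fun g => ?_
        rw [mem_LE]
        intro i j hij
        exact absurd hij (hA _ _)
      have hcard : ((Finset.univ : Finset (Equiv.Perm (Fin 4))).card : ℝ) = 24 := by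
        rw [Finset.card_univ, Fintype.card_perm, Fintype.card_fin]
        norm_num [Nat.factorial]
      have e3 : ∑ τ ∈ LE (winRel (int_le hp) Q π),
          (if Anti (int_le hp) Q (π * emb (int_le hp) τ) then F (π * emb (int_le hp) τ) else 0) =
          ∑ τ : Equiv.Perm (Fin 4), ((ep Q lab p (π * emb (int_le hp) τ) *
            Dl lab p (π * emb (int_le hp) τ) - 2 / 3 : ℝ) : ℂ) *
            (Complex.exp (z * Xf lab (π * emb (int_le hp) τ) / 2) -
              Complex.exp (z * Xf lab π / 2)) := by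
        rw [hall]
        have h0 : ∑ τ : Equiv.Perm (Fin 4), ((ep Q lab p (π * emb (int_le hp) τ) *
            Dl lab p (π * emb (int_le hp) τ) - 2 / 3 : ℝ) : ℂ) * Complex.exp (z * Xf lab π / 2) =
            0 := by
          rw [← Finset.sum_mul, ← Complex.ofReal_sum, Finset.sum_sub_distrib, hS π hA,
            Finset.sum_const, nsmul_eq_mul, hcard]
          norm_num
        simp only [mul_sub]
        rw [Finset.sum_sub_distrib, h0, sub_zero]
        refine Finset.sum_congr rfl fun τ _ => ?_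
        rw [if_pos ((anti_mul_emb (int_le hp) π τ).2 hA)]
      change ‖((LE (winRel (int_le hp) Q π)).card : ℝ)⁻¹ • ∑ τ ∈ LE (winRel (int_le hp) Q π),
          (if Anti (int_le hp) Q (π * emb (int_le hp) τ) then F (π * emb (int_le hp) τ) else 0)‖ ≤ _
      rw [e3, hall, hcard, norm_smul, Real.norm_eq_abs, abs_of_pos (by norm_num : (0 : ℝ) < 24⁻¹)]
      have b3 : ‖∑ τ : Equiv.Perm (Fin 4), ((ep Q lab p (π * emb (int_le hp) τ) *
            Dl lab p (π * emb (int_le hp) τ) - 2 / 3 : ℝ) : ℂ) *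
            (Complex.exp (z * Xf lab (π * emb (int_le hp) τ) / 2) -
              Complex.exp (z * Xf lab π / 2))‖ ≤
          24 * (3 * (10 * ‖z‖ * Real.exp (z.re * Xf lab π / 2))) := by
        refine (norm_sum_le _ _).trans ?_
        have : ∀ τ ∈ (Finset.univ : Finset (Equiv.Perm (Fin 4))),
            ‖((ep Q lab p (π * emb (int_le hp) τ) *
            Dl lab p (π * emb (int_le hp) τ) - 2 / 3 : ℝ) : ℂ) *
            (Complex.exp (z * Xf lab (π * emb (int_le hp) τ) / 2) -
              Complex.exp (z * Xf lab π / 2))‖ ≤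
            3 * (10 * ‖z‖ * Real.exp (z.re * Xf lab π / 2)) := by
          intro τ _
          rw [norm_mul, Complex.norm_real, Real.norm_eq_abs]
          exact mul_le_mul (hc _) (norm_expX_sub z hz _ _ (hX π τ)) (norm_nonneg _) (by norm_num)
        refine (Finset.sum_le_card_nsmul _ _ _ this).trans ?_
        rw [nsmul_eq_mul, hcard]
      linarith
    · have e3 : ∑ τ ∈ LE (winRel (int_le hp) Q π),
          (if Anti (int_le hp) Q (π * emb (int_le hp) τ) then F (π * emb (int_le hp) τ) else 0) =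
          0 := by
        refine Finset.sum_eq_zero fun τ _ => ?_
        rw [if_neg (fun h => hA ((anti_mul_emb (int_le hp) π τ).1 h))]
      change ‖((LE (winRel (int_le hp) Q π)).card : ℝ)⁻¹ • ∑ τ ∈ LE (winRel (int_le hp) Q π),
          (if Anti (int_le hp) Q (π * emb (int_le hp) τ) then F (π * emb (int_le hp) τ) else 0)‖ ≤ _
      rw [e3, smul_zero, norm_zero]
      positivity
  rw [e1, e2]
  exact (norm_add_le _ _).trans (add_le_add b1 b2)

end Pool.NL48
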