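import Pool.Agent.NL48.Defs
import Pool.Agent.PH43.Small
import Pool.Agent.PH48.WinRho

set_option autoImplicit false

/-!
# NL48/WinS: the number 16 (sum over an antichain window)
-/

namespace Pool.NL48

open Pool.HB45 Pool.PH43

theorem val16 : ∑ g : Equiv.Perm (Fin (3 + 1)), (if g 2 < g 1 then (-1 : ℤ) else 1) *
    ((des (fun a => a.val) (g * Equiv.swap 1 2) : ℤ) - des (fun a => a.val) g) = 8 := by
  decide +kernel

theorem des_sort' {lab : Fin (3 + 1) → ℕ} (hinj : Function.Injective lab)
    (g : Equiv.Perm (Fin (3 + 1))) :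
    des lab (Tuple.sort lab * g) = des (fun a => a.val) g := by
  have hm : StrictMono (lab ∘ Tuple.sort lab) :=
    (Tuple.monotone_sort lab).strictMono_of_injective (hinj.comp (Tuple.sort lab).injective)
  unfold des
  congr 1
  refine Finset.filter_congr fun i _ => ?_
  rw [Equiv.Perm.mul_apply, Equiv.Perm.mul_apply]
  exact (hm.lt_iff_lt (a := g i.succ) (b := g i.castSucc)).trans Fin.lt_def

theorem val16_lab {lab : Fin (3 + 1) → ℕ} (hinj : Function.Injective lab) :
    ∑ g : Equiv.Perm (Fin (3 + 1)), (if lab (g 2) < lab (g 1) then (-1 : ℤ) else 1) *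
      ((des lab (g * Equiv.swap 1 2) : ℤ) - des lab g) = 8 := by
  have hm : StrictMono (lab ∘ Tuple.sort lab) :=
    (Tuple.monotone_sort lab).strictMono_of_injective (hinj.comp (Tuple.sort lab).injective)
  rw [← val16, ← Equiv.sum_comp (Equiv.mulLeft (Tuple.sort lab))]
  refine Finset.sum_congr rfl fun g _ => ?_
  rw [Equiv.coe_mulLeft, mul_assoc, des_sort' hinj, des_sort' hinj]
  congr 1
  have e : lab ((Tuple.sort lab * g) 2) < lab ((Tuple.sort lab * g) 1) ↔ g 2 < g 1 := by
    rw [Equiv.Perm.mul_apply, Equiv.Perm.mul_apply]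
    exact hm.lt_iff_lt (a := g 2) (b := g 1)
  simp only [e]

theorem wpos_one {N : ℕ} {p : Fin N} (hp : Int' p) :
    wpos (int_le hp) (1 : Fin 4) = p.castSucc := by
  apply Fin.ext
  have := hp.1
  show p.val - 1 + 1 = p.val
  omega

theorem wpos_two {N : ℕ} {p : Fin N} (hp : Int' p) :
    wpos (int_le hp) (2 : Fin 4) = p.succ := by
  apply Fin.ext
  have := hp.1
  show p.val - 1 + 2 = p.val + 1
  omega

theorem emb_swap {N : ℕ} {p : Fin N} (hp : Int' p) :
    emb (int_le hp) (Equiv.swap (1 : Fin 4) 2) = Equiv.swap p.castSucc p.succ := by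
  ext q
  congr 1
  by_cases hq : p.val - 1 ≤ q.val ∧ q.val < p.val - 1 + 4
  · obtain ⟨i, rfl⟩ := exists_wpos (int_le hp) q hq
    rw [emb_wpos, ← wpos_one hp, ← wpos_two hp]
    have hinj : Function.Injective (wpos (int_le hp)) := by
      intro a b h
      have := congrArg Fin.val h
      apply Fin.ext
      have e1 : (wpos (int_le hp) a).val = p.val - 1 + a.val := rfl
      have e2 : (wpos (int_le hp) b).val = p.val - 1 + b.val := rfl
      omega
    rw [Equiv.swap_apply_def, Equiv.swap_apply_def]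
    simp only [hinj.eq_iff]
    split_ifs <;> rfl
  · rw [emb_of_not _ _ _ hq, Equiv.swap_apply_of_ne_of_ne]
    · rintro rfl
      apply hq
      have := hp.1
      have e : (p.castSucc : Fin (N + 1)).val = p.val := rfl
      omega
    · rintro rfl
      apply hq
      have := hp.1
      have e : (p.succ : Fin (N + 1)).val = p.val + 1 := rfl
      omega

theorem sw_emb {N : ℕ} {p : Fin N} (hp : Int' p) (g : Equiv.Perm (Fin (N + 1)))
    (τ : Equiv.Perm (Fin 4)) :
    sw (g * emb (int_le hp) τ) p = g * emb (int_le hp) (τ * Equiv.swap 1 2) := by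
  rw [sw, emb_mul, emb_swap hp, mul_assoc]

theorem des_cast {N : ℕ} (lab : Fin (N + 1) → ℕ) (g : Equiv.Perm (Fin (N + 1))) :
    (des lab g : ℤ) = ∑ i : Fin N, if lab (g i.succ) < lab (g i.castSucc) then 1 else 0 := by
  unfold des
  rw [Finset.card_filter]
  push_cast
  rfl

/-- the change of `des` under the swap is seen in the window -/
theorem des_sub {N : ℕ} (lab : Fin (N + 1) → ℕ) {p : Fin N}
    (hp : Int' p) (g : Equiv.Perm (Fin (N + 1))) (τ : Equiv.Perm (Fin 4)) :
    (des lab (sw (g * emb (int_le hp) τ) p) : ℤ) - des lab (g * emb (int_le hp) τ) =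
      (des (N := 3) (fun i => lab (g (wpos (int_le hp) i))) (τ * Equiv.swap 1 2) : ℤ) -
        des (N := 3) (fun i => lab (g (wpos (int_le hp) i))) τ := by
  rw [des_cast, des_cast, des_cast, des_cast, ← Finset.sum_sub_distrib, ← Finset.sum_sub_distrib]
  symm
  have h1 := hp.1
  have h2 := hp.2
  apply Fintype.sum_of_injective (fun i : Fin 3 => (⟨p.val - 1 + i.val, by omega⟩ : Fin N))
  · intro a b h
    have := congrArg Fin.val h
    apply Fin.ext
    simpa using this
  · intro i hi
    have hi' : i.val ≠ p.val - 1 ∧ i.val ≠ p.val ∧ i.val ≠ p.val + 1 := by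
      refine ⟨?_, ?_, ?_⟩
      · intro h
        exact hi ⟨0, Fin.ext (by simpa using h.symm)⟩
      · intro h
        exact hi ⟨1, Fin.ext (by simp; omega)⟩
      · intro h
        exact hi ⟨2, Fin.ext (by simp; omega)⟩
    have e1 : (i.castSucc : Fin (N + 1)).val = i.val := rfl
    have e2 : (i.succ : Fin (N + 1)).val = i.val + 1 := rfl
    rw [sw_other _ (i := i.castSucc) (by omega) (by omega),
      sw_other _ (i := i.succ) (by omega) (by omega), sub_self]
  · intro i
    have e1 : ((⟨p.val - 1 + i.val, by omega⟩ : Fin N).castSucc : Fin (N + 1)) =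
        wpos (int_le hp) i.castSucc := Fin.ext rfl
    have e2 : ((⟨p.val - 1 + i.val, by omega⟩ : Fin N).succ : Fin (N + 1)) =
        wpos (int_le hp) i.succ := Fin.ext (by simp [wpos]; omega)
    simp only [e1, e2, sw_emb hp, Equiv.Perm.mul_apply (g : Equiv.Perm (Fin (N + 1))), emb_wpos]

theorem sum_window' {N : ℕ} {Q : Rel (N + 1)} {lab : Fin (N + 1) → ℕ} (hn : Nat' Q lab) {p : Fin N}
    (hp : Int' p) (g : Equiv.Perm (Fin (N + 1))) (hA : Anti (int_le hp) Q g) :
    ∑ τ : Equiv.Perm (Fin 4), ep Q lab p (g * emb (int_le hp) τ) * Dl lab p (g * emb (int_le hp) τ) =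
      16 := by
  have hinj : Function.Injective (fun i : Fin 4 => lab (g (wpos (int_le hp) i))) := by
    intro a b h
    have h3 := g.injective (hn.inj h)
    have := congrArg Fin.val h3
    apply Fin.ext
    have e1 : (wpos (int_le hp) a).val = p.val - 1 + a.val := rfl
    have e2 : (wpos (int_le hp) b).val = p.val - 1 + b.val := rfl
    omega
  have key := val16_lab (lab := fun i : Fin 4 => lab (g (wpos (int_le hp) i))) hinj
  have hterm : ∀ τ : Equiv.Perm (Fin 4),
      ep Q lab p (g * emb (int_le hp) τ) * Dl lab p (g * emb (int_le hp) τ) =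
      2 * (((if lab (g (wpos (int_le hp) (τ 2))) < lab (g (wpos (int_le hp) (τ 1))) then (-1 : ℤ)
        else 1) * ((des (N := 3) (fun i => lab (g (wpos (int_le hp) i))) (τ * Equiv.swap 1 2) : ℤ) -
          des (N := 3) (fun i => lab (g (wpos (int_le hp) i))) τ) : ℤ) : ℝ) := by
    intro τ
    have e1 : (g * emb (int_le hp) τ) p.castSucc = g (wpos (int_le hp) (τ 1)) := by
      rw [← wpos_one hp, Equiv.Perm.mul_apply, emb_wpos]
    have e2 : (g * emb (int_le hp) τ) p.succ = g (wpos (int_le hp) (τ 2)) := by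
      rw [← wpos_two hp, Equiv.Perm.mul_apply, emb_wpos]
    have hQ : ¬ Q (g (wpos (int_le hp) (τ 1))) (g (wpos (int_le hp) (τ 2))) := hA (τ 1) (τ 2)
    have hD : Dl lab p (g * emb (int_le hp) τ) =
        2 * (((des lab (sw (g * emb (int_le hp) τ) p) : ℤ) - des lab (g * emb (int_le hp) τ) : ℤ)
          : ℝ) := by
      unfold Dl Xf
      push_cast
      ring
    rw [hD, des_sub lab hp]
    unfold ep
    rw [e1, e2, if_neg hQ]
    split_ifs
    · push_cast
      ring
    · push_cast
      ring
  rw [Finset.sum_congr rfl fun τ _ => hterm τ, ← Finset.mul_sum, ← Int.cast_sum, key]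
  norm_num

end Pool.NL48
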