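import Pool.Agent.NL48.Defs
import Pool.Agent.HB45.Emb

set_option autoImplicit false

/-!
# NL48/WinX: rearranging a window of four letters changes `X` by at most 10
-/

namespace Pool.NL48

open Pool.HB45 Pool.PH43

/-- the neighbour pairs which meet the window `[o, o + 4)` -/
theorem card_pairsX {N o : ℕ} :
    (Finset.univ.filter fun q : Fin N => o ≤ q.val + 1 ∧ q.val < o + 4).card ≤ 5 := by
  calc (Finset.univ.filter fun q : Fin N => o ≤ q.val + 1 ∧ q.val < o + 4).card
      = ((Finset.univ.filter fun q : Fin N => o ≤ q.val + 1 ∧ q.val < o + 4).image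
          Fin.val).card := (Finset.card_image_of_injective _ Fin.val_injective).symm
    _ ≤ (Finset.Ico (o - 1) (o + 4)).card := by
        apply Finset.card_le_card
        intro x hx
        rw [Finset.mem_image] at hx
        obtain ⟨q, hq, rfl⟩ := hx
        rw [Finset.mem_filter] at hq
        rw [Finset.mem_Ico]
        omega
    _ ≤ 5 := by
        rw [Nat.card_Ico]
        omega

theorem des_leX {N o : ℕ} (lab : Fin (N + 1) → ℕ) (g g' : Equiv.Perm (Fin (N + 1)))
    (h : ∀ q : Fin (N + 1), ¬ (o ≤ q.val ∧ q.val < o + 4) → g' q = g q) :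
    des lab g ≤ des lab g' + 5 := by
  unfold des
  calc (Finset.univ.filter fun i : Fin N => lab (g i.succ) < lab (g i.castSucc)).card
      ≤ ((Finset.univ.filter fun i : Fin N => lab (g' i.succ) < lab (g' i.castSucc)) ∪
          (Finset.univ.filter fun q : Fin N => o ≤ q.val + 1 ∧ q.val < o + 4)).card := by
        apply Finset.card_le_card
        intro i hi
        rw [Finset.mem_filter] at hi
        rw [Finset.mem_union, Finset.mem_filter, Finset.mem_filter]
        by_cases hc : o ≤ i.val + 1 ∧ i.val < o + 4
        · exact Or.inr ⟨Finset.mem_univ _, hc⟩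
        · left
          refine ⟨Finset.mem_univ _, ?_⟩
          rw [h i.succ (by rw [Fin.val_succ]; omega), h i.castSucc (by rw [Fin.val_castSucc]; omega)]
          exact hi.2
    _ ≤ _ := (Finset.card_union_le _ _).trans (Nat.add_le_add_left card_pairsX _)

/-- rearranging a window of four letters changes `X` by at most 10 (five neighbour pairs) -/
theorem Xf_windowX {N : ℕ} (lab : Fin (N + 1) → ℕ) {p : Fin N}
    (hp : Int' p) (g : Equiv.Perm (Fin (N + 1))) (τ : Equiv.Perm (Fin 4)) :
    |Xf lab (g * emb (int_le hp) τ) - Xf lab g| ≤ 10 := by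
  have h : ∀ q : Fin (N + 1), ¬ (p.val - 1 ≤ q.val ∧ q.val < p.val - 1 + 4) →
      (g * emb (int_le hp) τ) q = g q := by
    intro q hq
    rw [Equiv.Perm.mul_apply, emb_of_not (int_le hp) τ q hq]
  have h1 := des_leX lab g (g * emb (int_le hp) τ) h
  have h2 := des_leX lab (g * emb (int_le hp) τ) g fun q hq => (h q hq).symm
  have h1' : (des lab g : ℝ) ≤ des lab (g * emb (int_le hp) τ) + 5 := by exact_mod_cast h1
  have h2' : (des lab (g * emb (int_le hp) τ) : ℝ) ≤ des lab g + 5 := by exact_mod_cast h2
  unfold Xf
  rw [abs_le]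
  constructor <;> linarith

end Pool.NL48
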