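import Pool.Agent.NL48.Swp
import Pool.Agent.NL48.WinA
import Pool.Agent.NL48.WinX
import Pool.Agent.PH48.WinRho
import Pool.Agent.NL48.WinS

set_option autoImplicit false

/-!
# NL48/Win: the average over a window (STUB)
-/

namespace Pool.NL48

open Pool.HB45 Pool.PH43

/-- THE NUMBER 16. The 24 orders of an antichain window `p - 1, …, p + 2`: exchanging the middle letters changes `X` by
`-2 · ep · (…)`: the sum of `ep p · D p` is `2 (12 - 4) = 16`. PROOF. `ep p · D p` at `g * emb π` depends only on the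
relative order of the four labels (`D p`: descents at the pairs `p-1, p, p+1`); reduce to the labels `0,1,2,3` by sorting as in
`PH48/Win4` (`des_sort`, `P4_card`, `decide +kernel`). -/
theorem sum_window {N : ℕ} {Q : Rel (N + 1)} {lab : Fin (N + 1) → ℕ} (hn : Nat' Q lab) {p : Fin N}
    (hp : Int' p) (g : Equiv.Perm (Fin (N + 1))) (hA : Anti (int_le hp) Q g) :
    ∑ τ : Equiv.Perm (Fin 4), ep Q lab p (g * emb (int_le hp) τ) * Dl lab p (g * emb (int_le hp) τ) =
      16 := by
  exact sum_window' hn hp g hA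

/-- rearranging a window of four letters changes `X` by at most 10 (five neighbour pairs) -/
theorem Xf_window {N : ℕ} (lab : Fin (N + 1) → ℕ) {p : Fin N}
    (hp : Int' p) (g : Equiv.Perm (Fin (N + 1))) (τ : Equiv.Perm (Fin 4)) :
    |Xf lab (g * emb (int_le hp) τ) - Xf lab g| ≤ 10 :=
  Xf_windowX lab hp g τ

open Classical in
/-- ONE WINDOW. PROOF. Split the words into `Anti` (window of `p`) and not `Anti` (there `|ep D - 2/3| ≤ 3`). For the first
part `avg` (window `p - 1`, `f = 4`) applied to `if Anti then (ep D - 2/3) e^(zX/2) else 0`: `Anti` does not change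
(`anti_mul_emb`), `LE (winRel) = univ` (24 elements), `Σ_τ (ep D - 2/3) = 0` (`sum_window`), and
`‖e^(zX(g τ)/2) - e^(zX(g)/2)‖ ≤ 10 ‖z‖ e^(sX/2)` (`‖z‖ ≤ 1/10`: `‖e^w - 1‖ ≤ 2 ‖w‖`, `‖w‖ ≤ 5 ‖z‖`). -/
theorem one_window {N : ℕ} {Q : Rel (N + 1)} {lab : Fin (N + 1) → ℕ} (hn : Nat' Q lab) {p : Fin N}
    (hp : Int' p) (z : ℂ) (hz : ‖z‖ ≤ 1 / 10) :
    ‖∑ g ∈ LE Q, ((ep Q lab p g * Dl lab p g : ℝ) : ℂ) * Complex.exp (z * Xf lab g / 2) -
      2 / 3 * MC Q lab z‖ ≤
      30 * ‖z‖ * MR Q lab z.re +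
        3 * ∑ g ∈ (LE Q).filter (fun g => ¬ An Q p g), Real.exp (z.re * Xf lab g / 2) := by
  exact one_window_of hn hp z hz (fun g hA => sum_window hn hp g hA) (fun g τ => Xf_window lab hp g τ)

end Pool.NL48
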